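import Pool.Agent.Helper91.Dich.Defs

/-!
Relative dichotomy: classes of relations, programs with leaves in a class, and the block
structure used for the lower bound.
-/

namespace Pool.Agent.RelD

open Pool.Agent.Dichotomy

/-- A class of Boolean relations: for every `n` a family of sets of assignments of `n`
variables. -/
abbrev RelClass := ∀ n : ℕ, Set (Set (Fin n → ZMod 2))

/-- The class contains the affine relations and is closed under flipping, fixing and forgetting
variables. -/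
structure Closed (L : RelClass) : Prop where
  affine : ∀ (n : ℕ) (S : Set (Fin n → ZMod 2)), IsAffine S → S ∈ L n
  flip : ∀ (n : ℕ) (S : Set (Fin n → ZMod 2)) (c : Fin n → ZMod 2), S ∈ L n →
    {x | x + c ∈ S} ∈ L n
  fix : ∀ (n : ℕ) (S : Set (Fin n → ZMod 2)) (i : Fin n) (a : ZMod 2), S ∈ L n →
    {x | x ∈ S ∧ x i = a} ∈ L n
  forget : ∀ (n k : ℕ) (S : Set (Fin n → ZMod 2)) (f : Fin k → Fin n), Function.Injective f →
    S ∈ L n → {x | ∃ y ∈ S, x = fun i => y (f i)} ∈ L k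

/-- A program on the variables `ι` with gates `g` and ranks `rk`: every gate `v` carries a set
`M v` of assignments, which has at most `W` elements, or belongs to the family `L`, or is
a union of sets `M a` and of sumsets `M a + M b` with gates `a`, `b` of smaller rank. -/
def IsProg {ι g : Type*} (L : Set (Set (ι → ZMod 2))) (rk : g → ℕ) (W : ℕ)
    (M : g → Set (ι → ZMod 2)) : Prop :=
  ∀ v, ((M v).Finite ∧ (M v).ncard ≤ W) ∨ M v ∈ L ∨
    ∃ (Q : Set g) (P : Set (g × g)), (∀ a ∈ Q, rk a < rk v) ∧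
      (∀ p ∈ P, rk p.1 < rk v ∧ rk p.2 < rk v) ∧
      ∀ x, x ∈ M v ↔ (∃ a ∈ Q, x ∈ M a) ∨
        ∃ p ∈ P, ∃ y ∈ M p.1, ∃ z ∈ M p.2, x = y + z

/-! ### The block structure -/

/-- Positions: `m` blocks of `k` variables. -/
abbrev Pt (m k : ℕ) := Fin m × Fin k

/-- Vertices: every position `p` has two hubs `(p, 0)`, `(p, 1)` and a variable `(p, 2)`. -/
abbrev Vt (m k : ℕ) := Pt m k × Fin 3

/-- The oriented edges: `(p,0) -> (q,1)` for `(p,q) ∈ E0` and `(p,0) -> (p,2)` for positions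
`p = (j,i)` with `i ∈ K`. -/
def Arc {m k : ℕ} (E0 : Finset (Pt m k × Pt m k)) (K : Finset (Fin k)) (u v : Vt m k) : Prop :=
  (u.2 = 0 ∧ v.2 = 1 ∧ (u.1, v.1) ∈ E0) ∨ (u.2 = 0 ∧ v.2 = 2 ∧ u.1 = v.1 ∧ u.1.2 ∈ K)

/-- The graph of the or constraints. -/
def Gr {m k : ℕ} (E0 : Finset (Pt m k × Pt m k)) (K : Finset (Fin k)) :
    SimpleGraph (Vt m k) where
  Adj u v := Arc E0 K u v ∨ Arc E0 K v u
  symm := ⟨fun _ _ h => h.symm⟩
  loopless := ⟨by
    rintro u ((⟨h1, h2, -⟩ | ⟨h1, h2, -⟩) | (⟨h1, h2, -⟩ | ⟨h1, h2, -⟩)) <;>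
      (rw [h1] at h2; exact absurd h2 (by decide))⟩

/-- The same graph with all blocks made complete. -/
def GrB {m k : ℕ} (E0 : Finset (Pt m k × Pt m k)) (K : Finset (Fin k)) :
    SimpleGraph (Vt m k) where
  Adj u v := u ≠ v ∧ ((Gr E0 K).Adj u v ∨ u.1.1 = v.1.1)
  symm := ⟨fun _ _ h => ⟨h.1.symm, h.2.imp (fun h => h.symm) (fun h => h.symm)⟩⟩
  loopless := ⟨fun _ h => h.1 rfl⟩

/-- The values of the variables of the block `j`. -/
def blk {m k : ℕ} (j : Fin m) (x : Vt m k → ZMod 2) : Fin k → ZMod 2 := fun i => x ((j, i), 2)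

/-- The target: all or constraints hold and every block satisfies the relation `S0`. -/
def Tgt {m k : ℕ} (E0 : Finset (Pt m k × Pt m k)) (K : Finset (Fin k))
    (S0 : Set (Fin k → ZMod 2)) : Set (Vt m k → ZMod 2) :=
  {x | x ∈ VC (Gr E0 K) ∧ ∀ j, blk j x ∈ S0}

/-- The vertices which are used for the patterns: all hubs, and the variables `(j,i)` with
`i ∈ K`. -/
def XK (m : ℕ) {k : ℕ} (K : Finset (Fin k)) : Finset (Vt m k) :=
  Finset.univ.filter fun u => u.2 = 2 → u.1.2 ∈ K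

end Pool.Agent.RelD
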