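import Pool.Agent.RelD.Defs
import Pool.Agent.Helper91.Dich.Transfer

namespace Pool.Agent.RelD

open Finset Pool.Agent.Dichotomy

/-- The instance built from a bipartite graph and a relation with a three element minor. -/
theorem exists_instance2 {V : Type*} [Fintype V] [DecidableEq V] (G : SimpleGraph V)
    (E : Finset (V × V)) (hE : ∀ p ∈ E, G.Adj p.1 p.2) (hEG : ∀ u v, G.Adj u v →
      (u, v) ∈ E ∨ (v, u) ∈ E) (col : V → Bool) (hcol : ∀ p ∈ E, col p.1 = true ∧ col p.2 = false)
    {r : ℕ} {R : Set (Fin r → ZMod 2)} {i j : Fin r} (hij : i ≠ j) {S : Finset (Fin r)}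
    (hiS : i ∉ S) (hjS : j ∉ S) {ρ : Fin r → ZMod 2} (τc : Bool → ZMod 2)
    (hmin : ∀ a b : ZMod 2, (∃ y ∈ R, (∀ k ∈ S, y k = ρ k) ∧ y i = a ∧ y j = b) ↔
        ¬ (a = τc true ∧ b = τc false)) (N : ℕ)
    (hN : Fintype.card V + 2 + r * E.card ≤ N) :
    ∃ (I : List (Constraint N)) (z0 z1 : Fin N) (emb : V → Fin N) (τ : V → ZMod 2),
      I.length = E.card ∧ (∀ c ∈ I, c.arity = r ∧ HEq c.rel R) ∧
      Function.Injective emb ∧ (∀ u, τ u = τc (col u)) ∧
      ∀ x : V → ZMod 2, (∃ y ∈ Sol I, y z0 = 0 ∧ y z1 = 1 ∧ ∀ u, x u = y (emb u)) ↔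
        x + τ ∈ VC G := by
  classical
  set α := τc true with hα
  set β := τc false with hβ
  -- the variables
  let T : Type _ := V ⊕ (ZMod 2) ⊕ (E × Fin r)
  have hT : Fintype.card T ≤ N := by
    have : Fintype.card T = Fintype.card V + (2 + E.card * r) := by
      simp only [T, Fintype.card_sum, Fintype.card_prod, Fintype.card_coe, Fintype.card_fin]
      rw [ZMod.card]
    rw [this]; rw [mul_comm r] at hN; omega
  obtain ⟨e, he⟩ : ∃ e : T → Fin N, Function.Injective e := by
    have : Fintype.card T ≤ Fintype.card (Fin N) := by rw [Fintype.card_fin]; exact hT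
    obtain ⟨f⟩ := Function.Embedding.nonempty_of_card_le this
    exact ⟨f, f.injective⟩
  let sc : E → Fin r → T := fun p k =>
    if k = i then Sum.inl p.1.1 else if k = j then Sum.inl p.1.2 else
      if k ∈ S then Sum.inr (Sum.inl (ρ k)) else Sum.inr (Sum.inr (p, k))
  let con : E → Constraint N := fun p => ⟨r, R, fun k => e (sc p k)⟩
  let I : List (Constraint N) := (Finset.univ : Finset E).toList.map con
  have hI : ∀ c, c ∈ I ↔ ∃ p : E, con p = c := by
    intro c; simp [I]
  let τ : V → ZMod 2 := fun u => if col u = true then α else β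
  refine ⟨I, e (Sum.inr (Sum.inl 0)), e (Sum.inr (Sum.inl 1)), fun u => e (Sum.inl u), τ,
    ?_, ?_, ?_, ?_, ?_⟩
  · simp [I]
  · intro c hc
    obtain ⟨p, rfl⟩ := (hI c).1 hc
    exact ⟨rfl, HEq.rfl⟩
  · intro u v huv
    exact Sum.inl_injective (he huv)
  · intro u
    rcases Bool.eq_false_or_eq_true (col u) with h | h
    · simp [τ, h, hα]
    · simp [τ, h, hβ]
  · intro x
    have key : x + τ ∈ VC G ↔ ∀ p ∈ E, ¬ (x p.1 = α ∧ x p.2 = β) := by
      have h2 : ∀ a b : ZMod 2, a + b = 1 ↔ a ≠ b := by decide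
      have hpair : ∀ p ∈ E, ((x + τ) p.1 = 1 ∨ (x + τ) p.2 = 1) ↔ ¬ (x p.1 = α ∧ x p.2 = β) := by
        intro p hp
        obtain ⟨c1, c2⟩ := hcol p hp
        have t1 : τ p.1 = α := by simp [τ, c1]
        have t2 : τ p.2 = β := by simp [τ, c2]
        rw [Pi.add_apply, Pi.add_apply, t1, t2, h2, h2]
        tauto
      constructor
      · intro h p hp
        exact (hpair p hp).1 (h p.1 p.2 (hE p hp))
      · intro h u v huv
        rcases hEG u v huv with h1 | h1
        · exact (hpair _ h1).2 (h _ h1)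
        · exact ((hpair _ h1).2 (h _ h1)).symm
    rw [key]
    constructor
    · rintro ⟨y, hy, h0, h1, hx⟩ p hp
      have hc : (fun k => y (e (sc ⟨p, hp⟩ k))) ∈ R := hy (con ⟨p, hp⟩) ((hI _).2 ⟨⟨p, hp⟩, rfl⟩)
      have := (hmin (x p.1) (x p.2)).1 ⟨_, hc, ?_, ?_, ?_⟩
      · exact this
      · intro k hk
        have hki : k ≠ i := by rintro rfl; exact hiS hk
        have hkj : k ≠ j := by rintro rfl; exact hjS hk
        have hsck : sc ⟨p, hp⟩ k = Sum.inr (Sum.inl (ρ k)) := by simp [sc, hki, hkj, hk]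
        show y (e (sc ⟨p, hp⟩ k)) = ρ k
        rw [hsck]
        have h3 : ∀ a : ZMod 2, a = 0 ∨ a = 1 := by decide
        rcases h3 (ρ k) with h | h
        · rw [h]; exact h0
        · rw [h]; exact h1
      · show y (e (sc ⟨p, hp⟩ i)) = x p.1
        have : sc ⟨p, hp⟩ i = Sum.inl p.1 := by simp [sc]
        rw [this, hx]
      · show y (e (sc ⟨p, hp⟩ j)) = x p.2
        have : sc ⟨p, hp⟩ j = Sum.inl p.2 := by simp [sc, hij.symm]
        rw [this, hx]
    · intro h
      have hw : ∀ p : E, ∃ w ∈ R, (∀ k ∈ S, w k = ρ k) ∧ w i = x p.1.1 ∧ w j = x p.1.2 :=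
        fun p => (hmin _ _).2 (h p.1 p.2)
      choose w hwR hwS hwi hwj using hw
      let y0 : T → ZMod 2 := fun t => match t with
        | Sum.inl u => x u
        | Sum.inr (Sum.inl c) => c
        | Sum.inr (Sum.inr q) => w q.1 q.2
      let y : Fin N → ZMod 2 := fun q => if hq : ∃ t, e t = q then y0 hq.choose else 0
      have hye : ∀ t, y (e t) = y0 t := by
        intro t
        have hex : ∃ t', e t' = e t := ⟨t, rfl⟩
        have : y (e t) = y0 hex.choose := by simp only [y, dif_pos hex]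
        rw [this, he hex.choose_spec]
      refine ⟨y, ?_, by rw [hye], by rw [hye], fun u => by rw [hye]⟩
      intro c hc
      obtain ⟨p, rfl⟩ := (hI c).1 hc
      show (fun k => y (e (sc p k))) ∈ R
      have : (fun k => y (e (sc p k))) = w p := by
        funext k
        rw [hye]
        by_cases hki : k = i
        · subst hki; simp only [sc, if_pos, y0]; exact (hwi p).symm
        · by_cases hkj : k = j
          · subst hkj; simp only [sc, if_neg hki, if_pos, y0]; exact (hwj p).symm
          · by_cases hkS : k ∈ S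
            · simp only [sc, if_neg hki, if_neg hkj, if_pos hkS, y0]; exact (hwS p k hkS).symm
            · simp only [sc, if_neg hki, if_neg hkj, if_neg hkS, y0]
      rw [this]; exact hwR p

end Pool.Agent.RelD
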