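import Pool.Agent.RelD.Defs
import Pool.Agent.RelD.Inst0

namespace Pool.Agent.RelD

open Finset Pool.Agent.Dichotomy

/-- Flip one variable. -/
def flip1 {ι : Type*} [DecidableEq ι] (x : ι → ZMod 2) (i : ι) : ι → ZMod 2 :=
  Function.update x i (x i + 1)

/-- Delta-matroids (Bouchet): for `x, y ∈ S` and `x i ≠ y i` there is `j` with `x j ≠ y j`, such
that flipping `{i, j}` in `x` gives an element of `S` (`j = i` is allowed: then only `i` is
flipped). -/
def IsDelta {n : ℕ} (S : Set (Fin n → ZMod 2)) : Prop :=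
  ∀ x ∈ S, ∀ y ∈ S, ∀ i, x i ≠ y i → ∃ j, x j ≠ y j ∧
    (if j = i then flip1 x i else flip1 (flip1 x i) j) ∈ S

/-- The class of the relations which are affine or delta-matroids. -/
def AffDelta : RelClass := fun _ => {S | IsAffine S ∨ IsDelta S}

theorem Delta_flip1_add {ι : Type*} [DecidableEq ι] (x c : ι → ZMod 2) (i : ι) :
    flip1 x i + c = flip1 (x + c) i := by
  funext k
  by_cases h : k = i
  · subst h
    simp only [flip1, Pi.add_apply, Function.update_self]
    ring
  · simp only [flip1, Pi.add_apply, Function.update_of_ne h]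

theorem Delta_flip1_ne {ι : Type*} [DecidableEq ι] (x : ι → ZMod 2) {i k : ι} (h : k ≠ i) :
    flip1 x i k = x k := by
  simp only [flip1, Function.update_of_ne h]

theorem Delta_flip1_comp {n k : ℕ} {f : Fin k → Fin n} (hf : Function.Injective f)
    (x : Fin n → ZMod 2) (i : Fin k) : (fun j => flip1 x (f i) (f j)) = flip1 (fun j => x (f j)) i := by
  funext j
  by_cases h : j = i
  · subst h
    simp only [flip1, Function.update_self]
  · rw [Delta_flip1_ne _ h, Delta_flip1_ne _ (fun h' => h (hf h'))]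

theorem Delta_flip1_out {n k : ℕ} {f : Fin k → Fin n} (x : Fin n → ZMod 2) {q : Fin n}
    (hq : ∀ j, f j ≠ q) : (fun j => flip1 x q (f j)) = fun j => x (f j) := by
  funext j
  rw [Delta_flip1_ne _ (hq j)]

theorem affDelta_closed : Closed AffDelta := by
  refine ⟨fun n S h => Or.inl h, fun n S c h => ?_, fun n S i a h => ?_,
    fun n k S f hf h => ?_⟩
  · rcases h with h | h
    · left
      intro x hx y hy z hz
      have h1 := h _ hx _ hy _ hz
      have h2 : x + c + (y + c) + (z + c) = x + y + z + c := by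
        have h3 := pi_add_self c
        calc x + c + (y + c) + (z + c) = x + y + z + c + (c + c) := by abel
          _ = x + y + z + c := by rw [h3, add_zero]
      rwa [h2] at h1
    · right
      intro x hx y hy i hi
      obtain ⟨j, hj, hm⟩ := h _ hx _ hy i (fun h' => hi (add_right_cancel h'))
      refine ⟨j, fun h' => hj (by rw [Pi.add_apply, Pi.add_apply, h']), ?_⟩
      show (if j = i then flip1 x i else flip1 (flip1 x i) j) + c ∈ S
      by_cases hji : j = i
      · rw [if_pos hji] at hm ⊢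
        rwa [Delta_flip1_add]
      · rw [if_neg hji] at hm ⊢
        rwa [Delta_flip1_add, Delta_flip1_add]
  · rcases h with h | h
    · left
      rintro x ⟨hx, hxa⟩ y ⟨hy, hya⟩ z ⟨hz, hza⟩
      refine ⟨h x hx y hy z hz, ?_⟩
      rw [Pi.add_apply, Pi.add_apply, hxa, hya, hza, zmod2_add_self, zero_add]
    · right
      rintro x ⟨hx, hxa⟩ y ⟨hy, hya⟩ l hl
      obtain ⟨j, hj, hm⟩ := h x hx y hy l hl
      have hli : i ≠ l := by
        rintro rfl
        exact hl (hxa.trans hya.symm)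
      have hji : i ≠ j := by
        rintro rfl
        exact hj (hxa.trans hya.symm)
      refine ⟨j, hj, hm, ?_⟩
      by_cases hjl : j = l
      · rw [if_pos hjl, Delta_flip1_ne _ hli, hxa]
      · rw [if_neg hjl, Delta_flip1_ne _ hji, Delta_flip1_ne _ hli, hxa]
  · rcases h with h | h
    · left
      rintro x ⟨X, hX, rfl⟩ y ⟨Y, hY, rfl⟩ z ⟨Z, hZ, rfl⟩
      exact ⟨X + Y + Z, h X hX Y hY Z hZ, rfl⟩
    · right
      rintro x ⟨X, hX, rfl⟩ y ⟨Y, hY, rfl⟩ i hi
      obtain ⟨q, hq, hm⟩ := h X hX Y hY (f i) hi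
      by_cases h1 : q = f i
      · refine ⟨i, hi, ?_⟩
        rw [if_pos h1] at hm
        rw [if_pos rfl]
        exact ⟨_, hm, (Delta_flip1_comp hf X i).symm⟩
      · rw [if_neg h1] at hm
        by_cases h2 : ∃ j, f j = q
        · obtain ⟨j, rfl⟩ := h2
          have hji : j ≠ i := fun h' => h1 (by rw [h'])
          refine ⟨j, hq, ?_⟩
          rw [if_neg hji]
          refine ⟨_, hm, ?_⟩
          rw [Delta_flip1_comp hf (flip1 X (f i)) j, Delta_flip1_comp hf X i]
        · push Not at h2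
          refine ⟨i, hi, ?_⟩
          rw [if_pos rfl]
          refine ⟨_, hm, ?_⟩
          rw [Delta_flip1_out _ h2, Delta_flip1_comp hf X i]

/-- the path on three vertices -/
def DeltaP : SimpleGraph (Fin 3) where
  Adj u v := (u = 1 ∧ v ≠ 1) ∨ (u ≠ 1 ∧ v = 1)
  symm := ⟨fun _ _ h => h.symm.imp (fun h => ⟨h.2, h.1⟩) (fun h => ⟨h.2, h.1⟩)⟩
  loopless := ⟨fun _ h => h.elim (fun h => h.2 h.1) (fun h => h.1 h.2)⟩

theorem Delta_VC (x : Fin 3 → ZMod 2) : x ∈ VC DeltaP ↔ x 1 = 1 ∨ (x 0 = 1 ∧ x 2 = 1) := by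
  constructor
  · intro h
    have h0 := h 0 1 (Or.inr ⟨by decide, rfl⟩)
    have h2 := h 2 1 (Or.inr ⟨by decide, rfl⟩)
    tauto
  · intro h u v huv
    have h3 : ∀ w : Fin 3, w ≠ 1 → w = 0 ∨ w = 2 := by decide
    rcases huv with ⟨rfl, hv⟩ | ⟨hu, rfl⟩
    · rcases h with h | ⟨h0, h2⟩
      · exact Or.inl h
      · rcases h3 v hv with rfl | rfl
        · exact Or.inr h0
        · exact Or.inr h2
    · rcases h with h | ⟨h0, h2⟩
      · exact Or.inr h
      · rcases h3 u hu with rfl | rfl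
        · exact Or.inl h0
        · exact Or.inl h2

theorem Delta_VC_not : VC DeltaP ∉ AffDelta 3 := by
  have ha : (![1, 0, 1] : Fin 3 → ZMod 2) ∈ VC DeltaP := (Delta_VC _).2 (Or.inr ⟨rfl, rfl⟩)
  have hb : (![0, 1, 0] : Fin 3 → ZMod 2) ∈ VC DeltaP := (Delta_VC _).2 (Or.inl rfl)
  have hc : (![0, 1, 1] : Fin 3 → ZMod 2) ∈ VC DeltaP := (Delta_VC _).2 (Or.inl rfl)
  rintro (h | h)
  · have h1 := (Delta_VC _).1 (h _ ha _ hb _ hc)
    revert h1
    decide
  · obtain ⟨j, _, hm⟩ := h _ hb _ ha 1 (by decide)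
    have h1 := (Delta_VC _).1 hm
    clear hm
    revert h1
    revert j
    decide

/-- For every relation that is not affine some list of constraints with this relation has a
solution set which is neither affine nor a delta-matroid. -/
theorem exists_not_affDelta {r : ℕ} {R : Set (Fin r → ZMod 2)} (hR : ¬ IsAffine R) :
    ∃ (n : ℕ) (I : List (Constraint n)), (∀ c ∈ I, c.arity = r ∧ HEq c.rel R) ∧
      Sol I ∉ AffDelta n := by
  classical
  obtain ⟨i, j, hij, S, hiS, hjS, ρ, α, β, hmin⟩ := exists_minor hR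
  obtain ⟨I, z0, z1, emb, τ, _, hrel, hemb, _, hI⟩ := exists_instance2 DeltaP
    ({((0 : Fin 3), (1 : Fin 3)), ((2 : Fin 3), (1 : Fin 3))} : Finset (Fin 3 × Fin 3))
    (by
      intro p hp
      rw [Finset.mem_insert, Finset.mem_singleton] at hp
      rcases hp with rfl | rfl
      · exact Or.inr ⟨by decide, rfl⟩
      · exact Or.inr ⟨by decide, rfl⟩)
    (by
      intro u v huv
      have h3 : ∀ w : Fin 3, w ≠ 1 → w = 0 ∨ w = 2 := by decide
      rcases huv with ⟨rfl, hv⟩ | ⟨hu, rfl⟩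
      · rcases h3 v hv with rfl | rfl <;> simp
      · rcases h3 u hu with rfl | rfl <;> simp)
    (fun u => decide (u ≠ 1))
    (by
      intro p hp
      rw [Finset.mem_insert, Finset.mem_singleton] at hp
      rcases hp with rfl | rfl <;> decide)
    hij hiS hjS (fun b => if b = true then α else β) (by simpa using hmin) _ le_rfl
  refine ⟨_, I, hrel, fun hcon => Delta_VC_not ?_⟩
  have h1 := affDelta_closed.fix _ _ z1 1 (affDelta_closed.fix _ _ z0 0 hcon)
  have h2 := affDelta_closed.flip _ _ τ (affDelta_closed.forget _ _ _ emb hemb h1)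
  have h3 : {x : Fin 3 → ZMod 2 | x + τ ∈ {x : Fin 3 → ZMod 2 |
      ∃ y ∈ {x | x ∈ {x | x ∈ Sol I ∧ x z0 = 0} ∧ x z1 = 1}, x = fun i => y (emb i)}} =
      VC DeltaP := by
    ext x
    have h4 : x + τ + τ = x := by rw [add_assoc, pi_add_self, add_zero]
    have h5 := hI (x + τ)
    rw [h4] at h5
    rw [← h5]
    constructor
    · rintro ⟨y, ⟨⟨hy, hy0⟩, hy1⟩, hyx⟩
      exact ⟨y, hy, hy0, hy1, fun u => congrFun hyx u⟩
    · rintro ⟨y, hy, hy0, hy1, hyx⟩
      exact ⟨y, ⟨⟨hy, hy0⟩, hy1⟩, funext hyx⟩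
  rwa [h3] at h2

end Pool.Agent.RelD
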