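import Pool.Agent.RelD.Defs
import Pool.Agent.Helper34.XTW.Switch

namespace Pool.Agent.RelD

open Finset Pool.Agent.Dichotomy Pool.Agent.Helper34.XTW

/-- Membership in the solution set of the or constraints, by arcs. -/
theorem leafB_mem_VC {m k : ℕ} (E0 : Finset (Pt m k × Pt m k)) (K : Finset (Fin k))
    (x : Vt m k → ZMod 2)
    (h : ∀ u v, Arc E0 K u v → x u = 1 ∨ x v = 1) : x ∈ VC (Gr E0 K) := by
  intro u v huv
  rcases huv with h1 | h1
  · exact h u v h1
  · exact (h v u h1).symm

/-- A subset of the target which misses an element of the relation in every block is small. -/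
theorem tgt_leaf {m k : ℕ} (E0 : Finset (Pt m k × Pt m k)) (K : Finset (Fin k))
    (S0 : Set (Fin k → ZMod 2)) (T : Set (Vt m k → ZMod 2)) (hT : T ⊆ Tgt E0 K S0)
    (hmiss : ∀ j, ∃ s ∈ S0, ∀ x ∈ T, blk j x ≠ s) :
    (T.ncard : ℝ) ≤ (2 ^ (2 * k) / (2 ^ (2 * k) + 1)) ^ m * ((Tgt E0 K S0).ncard : ℝ) := by
  classical
  choose s hs hsT using hmiss
  have hsw := switch (Tgt E0 K S0) (Finset.univ : Finset (Fin m))
    (fun j => (Finset.univ : Finset (Fin k)).image fun i => (((j, i), 2) : Vt m k))
    (fun j => ((Finset.univ : Finset (Fin k)).image fun i => (((j, i), 2) : Vt m k)) ∪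
      ((Finset.univ : Finset (Fin k)).image fun i => (((j, i), 0) : Vt m k)))
    (fun j x => blk j x ≠ s j) (2 * k) ?_ ?_ ?_ ?_
  · rw [Finset.card_univ, Fintype.card_fin] at hsw
    refine le_trans ?_ hsw
    have hsub : T ⊆ {x ∈ Tgt E0 K S0 | ∀ i ∈ (Finset.univ : Finset (Fin m)), blk i x ≠ s i} :=
      fun x hx => ⟨hT hx, fun i _ => hsT i x hx⟩
    exact_mod_cast Set.ncard_le_ncard hsub (Set.toFinite _)
  · intro i _ j _ hij
    rw [Finset.disjoint_left]
    intro v hv hv'
    rw [Finset.mem_image] at hv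
    obtain ⟨a, -, rfl⟩ := hv
    rw [Finset.mem_union, Finset.mem_image, Finset.mem_image] at hv'
    rcases hv' with ⟨b, -, hb⟩ | ⟨b, -, hb⟩
    · exact hij (congrArg (fun w : Vt m k => w.1.1) hb).symm
    · exact hij (congrArg (fun w : Vt m k => w.1.1) hb).symm
  · intro j _ x y hxy hg
    have : blk j y = blk j x := by
      funext i
      exact hxy _ (Finset.mem_image.mpr ⟨i, Finset.mem_univ _, rfl⟩)
    rw [this]
    exact hg
  · intro j _
    refine (Finset.card_union_le _ _).trans ?_
    have h1 := Finset.card_image_le (s := (Finset.univ : Finset (Fin k)))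
      (f := fun i => (((j, i), 2) : Vt m k))
    have h2 := Finset.card_image_le (s := (Finset.univ : Finset (Fin k)))
      (f := fun i => (((j, i), 0) : Vt m k))
    rw [Finset.card_univ, Fintype.card_fin] at h1 h2
    omega
  · intro j _ x hx
    refine ⟨fun v => if v.1.1 = j then (if v.2 = 2 then s j v.1.2 else if v.2 = 0 then 1 else x v)
      else x v, ⟨?_, ?_⟩, ?_, ?_⟩
    · refine leafB_mem_VC E0 K _ ?_
      intro u v huv
      have hxv : x u = 1 ∨ x v = 1 := hx.1 u v (Or.inl huv)
      rcases huv with ⟨h1, h2, h3⟩ | ⟨h1, h2, h3, h4⟩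
      · by_cases hu : u.1.1 = j
        · left
          simp [hu, h1]
        · have hyv : (if v.1.1 = j then (if v.2 = 2 then s j v.1.2 else
              if v.2 = 0 then 1 else x v) else x v) = x v := by
            rw [h2]
            simp
          simp only [hyv]
          simp only [if_neg hu]
          exact hxv
      · by_cases hu : u.1.1 = j
        · left
          simp [hu, h1]
        · have hv : ¬ v.1.1 = j := by rw [← h3]; exact hu
          simp only [if_neg hu, if_neg hv]
          exact hxv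
    · intro j'
      by_cases hj : j' = j
      · have : blk j' (fun v : Vt m k => if v.1.1 = j then (if v.2 = 2 then s j v.1.2 else
            if v.2 = 0 then 1 else x v) else x v) = s j := by
          funext i
          simp [blk, hj]
        rw [this]
        exact hs j
      · have : blk j' (fun v : Vt m k => if v.1.1 = j then (if v.2 = 2 then s j v.1.2 else
            if v.2 = 0 then 1 else x v) else x v) = blk j' x := by
          funext i
          simp [blk, hj]
        rw [this]
        exact hx.2 j'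
    · intro v hv
      rw [Finset.mem_union, not_or, Finset.mem_image, Finset.mem_image] at hv
      by_cases hj : v.1.1 = j
      · have h2 : ¬ v.2 = 2 := by
          intro h
          refine hv.1 ⟨v.1.2, Finset.mem_univ _, ?_⟩
          rw [← hj, ← h]
        have h0 : ¬ v.2 = 0 := by
          intro h
          refine hv.2 ⟨v.1.2, Finset.mem_univ _, ?_⟩
          rw [← hj, ← h]
        simp only [if_neg h2, if_neg h0, ite_self]
      · simp only [if_neg hj]
    · rw [not_not]
      funext i
      simp [blk]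

/-- The target is large. -/
theorem tgt_card {m k : ℕ} (E0 : Finset (Pt m k × Pt m k)) (K : Finset (Fin k))
    (S0 : Set (Fin k → ZMod 2)) (hne : S0.Nonempty) :
    (2 : ℝ) ^ (m * k) ≤ ((Tgt E0 K S0).ncard : ℝ) := by
  classical
  obtain ⟨s, hs⟩ := hne
  let F : (Pt m k → ZMod 2) → (Vt m k → ZMod 2) := fun f v =>
    if v.2 = 0 then 1 else if v.2 = 1 then f v.1 else s v.1.2
  have hF : Function.Injective F := by
    intro f g hfg
    funext p
    have := congrFun hfg (p, 1)
    simpa [F] using this
  have hsub : Set.range F ⊆ Tgt E0 K S0 := by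
    rintro _ ⟨f, rfl⟩
    refine ⟨leafB_mem_VC E0 K _ ?_, ?_⟩
    · intro u v huv
      left
      have hu : u.2 = 0 := by
        rcases huv with ⟨h1, -⟩ | ⟨h1, -⟩ <;> exact h1
      simp [F, hu]
    · intro j
      have : blk j (F f) = s := by
        funext i
        simp [blk, F]
      rw [this]
      exact hs
  have h1 : (Set.range F).ncard = 2 ^ (m * k) := by
    rw [← Set.image_univ, Set.ncard_image_of_injective _ hF, Set.ncard_univ,
      Nat.card_eq_fintype_card, Fintype.card_fun, ZMod.card, Fintype.card_prod, Fintype.card_fin,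
      Fintype.card_fin]
  have h2 := Set.ncard_le_ncard hsub (Set.toFinite _)
  rw [h1] at h2
  exact_mod_cast h2

/-- Every pattern on `XK` occurs at most once. -/
theorem tgt_kappa {m k : ℕ} (E0 : Finset (Pt m k × Pt m k)) (K : Finset (Fin k))
    (S0 : Set (Fin k → ZMod 2)) (hne : S0.Nonempty)
    (hK' : ∀ i ∉ K, ∀ s ∈ S0, ∀ s' ∈ S0, s i = s' i) (p : Vt m k → ZMod 2) :
    ({x | x ∈ Tgt E0 K S0 ∧ ∀ i ∈ XK m K, x i = p i}.ncard : ℝ) ≤
      (1 / 2) ^ (m * k) * ((Tgt E0 K S0).ncard : ℝ) := by
  classical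
  have h1 : {x | x ∈ Tgt E0 K S0 ∧ ∀ i ∈ XK m K, x i = p i}.ncard ≤ 1 := by
    rw [Set.ncard_le_one (Set.toFinite _)]
    rintro x ⟨hx, hxp⟩ y ⟨hy, hyp⟩
    funext v
    by_cases hv : v ∈ XK m K
    · rw [hxp v hv, hyp v hv]
    · have hv' : ¬ (v.2 = 2 → v.1.2 ∈ K) := by
        intro h
        exact hv (Finset.mem_filter.mpr ⟨Finset.mem_univ _, h⟩)
      push Not at hv'
      have h3 := hK' v.1.2 hv'.2 _ (hx.2 v.1.1) _ (hy.2 v.1.1)
      have h4 : v = ((v.1.1, v.1.2), 2) := by
        rw [← hv'.1]
      rw [h4]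
      exact h3
  have h2 := tgt_card E0 K S0 hne
  have h3 : ({x | x ∈ Tgt E0 K S0 ∧ ∀ i ∈ XK m K, x i = p i}.ncard : ℝ) ≤ 1 := by
    exact_mod_cast h1
  have h4 : (1 / 2 : ℝ) ^ (m * k) * 2 ^ (m * k) = 1 := by
    rw [← mul_pow]
    norm_num
  exact (h3.trans h4.ge).trans (mul_le_mul_of_nonneg_left h2 (by positivity))

end Pool.Agent.RelD
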