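import Pool.Agent.RelD.Path
import Pool.Agent.RelD.LeafB
import Pool.Agent.Helper91.Dich.Transfer

/-!
The derived program (fix two variables, keep the core variables) and the bound for its leaves.
-/

namespace Pool.Agent.RelD

open Finset Pool.Agent.Dichotomy

set_option linter.unusedSectionVars false

/-- The leaves of the derived program. -/
def derL {ι V : Type*} (L : Set (Set (ι → ZMod 2))) (z0 z1 : ι) (emb : V → ι) :
    Set (Set (V → ZMod 2)) :=
  {S | ∃ S' ∈ L, ∃ a b : ZMod 2,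
    S = {x | ∃ y ∈ S', y z0 = a ∧ y z1 = b ∧ ∀ u, x u = y (emb u)}}

theorem derived_isProg {ι V g : Type*} [Fintype ι] [Fintype V] [DecidableEq V]
    {L : Set (Set (ι → ZMod 2))} {rk : g → ℕ}
    {W : ℕ} {M : g → Set (ι → ZMod 2)} (hM : IsProg L rk W M) (z0 z1 : ι) (emb : V → ι) :
    IsProg (derL L z0 z1 emb) (fun v : g × (ZMod 2 × ZMod 2) => rk v.1) W
      (derived M z0 z1 emb) := by
  classical
  rintro ⟨v, ζ0, ζ1⟩
  rcases hM v with ⟨hfin, hcard⟩ | haff | ⟨Q, P, hQ, hP, hmem⟩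
  · left
    refine ⟨Set.toFinite _, ?_⟩
    have hsub : derived M z0 z1 emb (v, ζ0, ζ1) ⊆ (fun y u => y (emb u)) '' M v := by
      rintro x ⟨y, hy, -, -, hx⟩
      exact ⟨y, hy, (funext hx).symm⟩
    exact (Set.ncard_le_ncard hsub (hfin.image _)).trans ((Set.ncard_image_le hfin).trans hcard)
  · right; left
    exact ⟨M v, haff, ζ0, ζ1, rfl⟩
  · right; right
    refine ⟨{a | a.1 ∈ Q ∧ a.2 = (ζ0, ζ1)},
      {p | (p.1.1, p.2.1) ∈ P ∧ p.1.2 + p.2.2 = (ζ0, ζ1)}, ?_, ?_, ?_⟩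
    · rintro ⟨a, ξ⟩ ⟨ha, -⟩; exact hQ a ha
    · rintro ⟨⟨a, ξ⟩, ⟨b, η⟩⟩ ⟨hp, -⟩; exact hP (a, b) hp
    · intro x
      constructor
      · rintro ⟨y, hy, h0, h1, hx⟩
        rcases (hmem y).1 hy with ⟨a, ha, hya⟩ | ⟨p, hp, y1, hy1, y2, hy2, rfl⟩
        · exact Or.inl ⟨(a, ζ0, ζ1), ⟨ha, rfl⟩, y, hya, h0, h1, hx⟩
        · refine Or.inr ⟨((p.1, y1 z0, y1 z1), (p.2, y2 z0, y2 z1)), ⟨hp, ?_⟩,
            fun u => y1 (emb u), ⟨y1, hy1, rfl, rfl, fun u => rfl⟩,
            fun u => y2 (emb u), ⟨y2, hy2, rfl, rfl, fun u => rfl⟩, ?_⟩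
          · exact Prod.ext h0 h1
          · funext u; rw [hx u]; rfl
      · rintro (⟨⟨a, ξ⟩, ⟨ha, hξ⟩, y, hya, h0, h1, hx⟩ |
          ⟨⟨⟨a, ξ⟩, ⟨b, η⟩⟩, ⟨hp, hξ⟩, x1, ⟨y1, hy1, h01, h11, hx1⟩, x2,
            ⟨y2, hy2, h02, h12, hx2⟩, rfl⟩)
        · subst hξ
          exact ⟨y, (hmem y).2 (Or.inl ⟨a, ha, hya⟩), h0, h1, hx⟩
        · have e0 : ξ.1 + η.1 = ζ0 := congrArg Prod.fst hξ
          have e1 : ξ.2 + η.2 = ζ1 := congrArg Prod.snd hξ
          refine ⟨y1 + y2, (hmem _).2 (Or.inr ⟨(a, b), hp, y1, hy1, y2, hy2, rfl⟩), ?_, ?_, ?_⟩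
          · rw [Pi.add_apply, h01, h02]; exact e0
          · rw [Pi.add_apply, h11, h12]; exact e1
          · intro u; simp [hx1, hx2]

/-- The projections of the leaves of the derived program belong to the class. -/
theorem proj_derL {L : RelClass} (hL : Closed L) {n k : ℕ} {V : Type*} {z0 z1 : Fin n}
    {emb : V → Fin n} (hemb : Function.Injective emb) {S : Set (V → ZMod 2)}
    (hS : S ∈ derL (L n) z0 z1 emb) (f : Fin k → V) (hf : Function.Injective f) :
    {x : Fin k → ZMod 2 | ∃ y ∈ S, x = fun i => y (f i)} ∈ L k := by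
  obtain ⟨S', hS', a, b, rfl⟩ := hS
  have h1 := hL.fix n _ z1 b (hL.fix n _ z0 a hS')
  have h2 := hL.forget n k _ (fun i => emb (f i)) (hemb.comp hf) h1
  convert h2 using 1
  ext x
  constructor
  · rintro ⟨x', ⟨y, hy, h0, h1, hx'⟩, rfl⟩
    exact ⟨y, ⟨⟨hy, h0⟩, h1⟩, funext fun i => hx' (f i)⟩
  · rintro ⟨y, ⟨⟨hy, h0⟩, h1⟩, rfl⟩
    exact ⟨fun u => y (emb u), ⟨y, hy, h0, h1, fun u => rfl⟩, rfl⟩

/-- The bound for the leaves. -/
theorem leaf_bound {L : RelClass} (hL : Closed L) {n m k : ℕ} {z0 z1 : Fin n}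
    {emb : Vt m k → Fin n} (hemb : Function.Injective emb)
    (E0 : Finset (Pt m k × Pt m k)) (K : Finset (Fin k)) {β : ZMod 2} {S1 : Set (Fin k → ZMod 2)}
    (hS1 : S1 ∉ L k)
    (hK' : ∀ i ∉ K, ∀ s ∈ {s : Fin k → ZMod 2 | s + (fun _ => β) ∈ S1},
      ∀ s' ∈ {s : Fin k → ZMod 2 | s + (fun _ => β) ∈ S1}, s i = s' i)
    (τ : Vt m k → ZMod 2) (hτ : ∀ p, τ (p, 2) = β)
    (S : Set (Vt m k → ZMod 2)) (hS : S ∈ derL (L n) z0 z1 emb)
    (C : Set (Vt m k → ZMod 2))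
    (hC : ∀ c ∈ C, ∀ y ∈ S, c + y ∈ {x | x + τ ∈ Tgt E0 K {s | s + (fun _ => β) ∈ S1}})
    (hconst : ∀ c ∈ C, ∀ c' ∈ C, ∀ i ∈ XK m K, c i = c' i) :
    ((ssum C S).ncard : ℝ) ≤ (2 ^ (2 * k) / (2 ^ (2 * k) + 1)) ^ m *
      (({x | x + τ ∈ Tgt E0 K {s | s + (fun _ => β) ∈ S1}} : Set (Vt m k → ZMod 2)).ncard : ℝ) := by
  classical
  set S0 : Set (Fin k → ZMod 2) := {s | s + (fun _ => β) ∈ S1} with hS0
  have hττ : ∀ x : Vt m k → ZMod 2, x + τ + τ = x := by
    intro x; rw [add_assoc, pi_add_self, add_zero]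
  have hinj : Function.Injective (fun x : Vt m k → ZMod 2 => x + τ) := add_left_injective τ
  have hcard : ({x | x + τ ∈ Tgt E0 K S0} : Set (Vt m k → ZMod 2)).ncard =
      (Tgt E0 K S0).ncard := by
    have himg : {x | x + τ ∈ Tgt E0 K S0} = (fun x : Vt m k → ZMod 2 => x + τ) '' Tgt E0 K S0 := by
      ext x
      constructor
      · intro hx; exact ⟨x + τ, hx, hττ x⟩
      · rintro ⟨y, hy, rfl⟩
        show y + τ + τ ∈ Tgt E0 K S0
        rw [hττ]; exact hy
    rw [himg]; exact Set.ncard_image_of_injective _ hinj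
  rw [hcard]
  set T : Set (Vt m k → ZMod 2) := (fun x : Vt m k → ZMod 2 => x + τ) '' ssum C S with hT
  have hTcard : T.ncard = (ssum C S).ncard := Set.ncard_image_of_injective _ hinj
  rw [← hTcard]
  rcases Set.eq_empty_or_nonempty T with hTe | hTne
  · rw [hTe, Set.ncard_empty, Nat.cast_zero]; positivity
  have hTsub : T ⊆ Tgt E0 K S0 := by
    rintro _ ⟨_, ⟨c, hc, y, hy, rfl⟩, rfl⟩
    exact hC c hc y hy
  obtain ⟨_, ⟨_, ⟨c0, hc0, y0, hy0, rfl⟩, rfl⟩⟩ := hTne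
  refine tgt_leaf E0 K S0 T hTsub ?_
  intro j
  by_contra hcon
  push Not at hcon
  -- the contexts are constant on the variables of the block
  have hblk : ∀ c ∈ C, blk j c = blk j c0 := by
    intro c hc
    funext i
    by_cases hi : i ∈ K
    · exact hconst c hc c0 hc0 ((j, i), 2) (by
        rw [XK, Finset.mem_filter]; exact ⟨Finset.mem_univ _, fun _ => hi⟩)
    · have h1 := (hC c hc y0 hy0).2 j
      have h2 := (hC c0 hc0 y0 hy0).2 j
      have h3 := hK' i hi _ h1 _ h2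
      simp only [blk, Pi.add_apply] at h3 ⊢
      exact add_right_cancel (add_right_cancel h3)
  set d : Fin k → ZMod 2 := blk j c0 + (fun _ => β) + (fun _ => β) with hd
  have hproj := proj_derL hL hemb hS (fun i : Fin k => (((j, i), 2) : Vt m k)) (by
    intro i i' h
    have := congrArg (fun u : Vt m k => u.1.2) h
    exact this)
  have hflip := hL.flip k _ d hproj
  apply hS1
  convert hflip using 1
  ext s
  have hββ : ∀ s : Fin k → ZMod 2, s + (fun _ => β) + (fun _ => β) = s := by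
    intro s; rw [add_assoc, pi_add_self, add_zero]
  constructor
  · intro hs
    have hs' : s + (fun _ => β) ∈ S0 := by
      show s + (fun _ => β) + (fun _ => β) ∈ S1
      rw [hββ]; exact hs
    obtain ⟨_, ⟨_, ⟨c, hc, y, hy, rfl⟩, rfl⟩, hx⟩ := hcon _ hs'
    refine ⟨y, hy, ?_⟩
    funext i
    have h1 := congrFun hx i
    have h2 := congrFun (hblk c hc) i
    simp only [blk, Pi.add_apply, hτ] at h1 h2
    show s i + d i = y ((j, i), 2)
    simp only [hd, Pi.add_apply, blk]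
    rw [← h2]
    have h3 : s i = c ((j, i), 2) + y ((j, i), 2) := by
      have : c ((j, i), 2) + y ((j, i), 2) + β + β = s i + β + β := by rw [h1]
      rw [add_assoc, add_assoc (s i), zmod2_add_self, add_zero, add_zero] at this
      exact this.symm
    rw [h3]
    generalize c ((j, i), 2) = a1
    generalize y ((j, i), 2) = a2
    clear * -
    revert a1 a2 β
    decide
  · rintro ⟨y, hy, hsy⟩
    have h1 := (hC c0 hc0 y hy).2 j
    have h2 : blk j (c0 + y + τ) + (fun _ => β) = s := by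
      funext i
      have h3 := congrFun hsy i
      simp only [hd, Pi.add_apply, blk] at h3
      simp only [blk, Pi.add_apply, hτ]
      rw [← h3]
      generalize c0 ((j, i), 2) = a1
      generalize s i = a2
      clear * -
      revert a1 a2 β
      decide
    have h3 : blk j (c0 + y + τ) + (fun _ => β) ∈ S1 := h1
    rw [h2] at h3
    exact h3

end Pool.Agent.RelD
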