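import Pool.Agent.RelD.Defs
import Pool.Agent.Helper91.Dich.Transfer
import Pool.Agent.RelD.Inst0

namespace Pool.Agent.RelD

open Finset Pool.Agent.Dichotomy

/-- The instance: or constraints made from a relation `R` that is not affine, and a copy of the
instance `I0` in every block.  After fixing two variables and forgetting the auxiliary variables
its solutions are the target, up to flips which are constant on the variables of the blocks. -/
theorem exists_inst {Γ : Language} {k : ℕ} (I0 : List (Constraint k)) (hI0 : Over Γ I0)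
    {r : ℕ} {R : Set (Fin r → ZMod 2)} (hRΓ : (⟨r, R⟩ : Σ r : ℕ, Set (Fin r → ZMod 2)) ∈ Γ)
    (hR : ¬ IsAffine R) :
    ∃ β : ZMod 2, ∀ (m : ℕ) (E0 : Finset (Pt m k × Pt m k)) (K : Finset (Fin k)) (n : ℕ),
      3 * (m * k) + 2 + r * (E0.card + m * k) ≤ n →
      ∃ (I : List (Constraint n)) (z0 z1 : Fin n) (emb : Vt m k → Fin n)
        (τ : Vt m k → ZMod 2), Over Γ I ∧ I.length ≤ E0.card + m * k + m * I0.length ∧
        Function.Injective emb ∧ (∀ p, τ (p, 2) = β) ∧
        ∀ x : Vt m k → ZMod 2, (∃ y ∈ Sol I, y z0 = 0 ∧ y z1 = 1 ∧ ∀ u, x u = y (emb u)) ↔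
          x + τ ∈ Tgt E0 K {s | s + (fun _ => β) ∈ Sol I0} := by
  classical
  obtain ⟨i, j, hij, S, hiS, hjS, ρ, α, β, hmin⟩ := exists_minor hR
  refine ⟨β, fun m E0 K n hn => ?_⟩
  set E : Finset (Vt m k × Vt m k) := Finset.univ.filter fun p => Arc E0 K p.1 p.2 with hE
  have hEc : E.card ≤ E0.card + m * k := by
    have h1 : E ⊆ E0.image (fun e => (((e.1, 0), (e.2, 1)) : Vt m k × Vt m k)) ∪
        (Finset.univ : Finset (Pt m k)).image (fun p => (((p, 0), (p, 2)) : Vt m k × Vt m k)) := by
      rintro ⟨⟨p, a⟩, ⟨q, b⟩⟩ hp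
      rw [hE, Finset.mem_filter] at hp
      rcases hp.2 with ⟨h1, h2, h3⟩ | ⟨h1, h2, h3, -⟩
      · simp only at h1 h2 h3
        subst h1 h2
        exact Finset.mem_union_left _ (Finset.mem_image.mpr ⟨(p, q), h3, rfl⟩)
      · simp only at h1 h2 h3
        subst h1 h2 h3
        exact Finset.mem_union_right _ (Finset.mem_image.mpr ⟨p, Finset.mem_univ _, rfl⟩)
    refine (Finset.card_le_card h1).trans ((Finset.card_union_le _ _).trans ?_)
    refine Nat.add_le_add Finset.card_image_le (Finset.card_image_le.trans ?_)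
    simp [Pt]
  have hcard : Fintype.card (Vt m k) = 3 * (m * k) := by
    simp only [Vt, Pt, Fintype.card_prod, Fintype.card_fin]
    ring
  obtain ⟨I1, z0, z1, emb, τ, hlen, hI1, hinj, hτ, hsol⟩ := exists_instance2 (Gr E0 K) E
    (fun p hp => Or.inl (Finset.mem_filter.mp hp).2) (fun u v huv => by
      rcases huv with h | h
      · exact Or.inl (Finset.mem_filter.mpr ⟨Finset.mem_univ _, h⟩)
      · exact Or.inr (Finset.mem_filter.mpr ⟨Finset.mem_univ _, h⟩))
    (fun u => decide (u.2 = 0)) (fun p hp => by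
      have h := (Finset.mem_filter.mp hp).2
      rcases h with ⟨h1, h2, -⟩ | ⟨h1, h2, -⟩
      · exact ⟨by simp [h1], by simp [h2]⟩
      · exact ⟨by simp [h1], by simp [h2]⟩)
    (R := R) hij hiS hjS (ρ := ρ) (fun b => if b = true then α else β)
    (by simpa using hmin) n (by
      rw [hcard]
      have := Nat.mul_le_mul_left r hEc
      omega)
  set I2 : List (Constraint n) := (List.finRange m).flatMap fun l =>
    I0.map fun c => ⟨c.arity, c.rel, fun a => emb ((l, c.scope a), 2)⟩ with hI2
  have hτ2 : ∀ p, τ (p, 2) = β := by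
    intro p
    rw [hτ]
    simp
  refine ⟨I1 ++ I2, z0, z1, emb, τ, ?_, ?_, hinj, hτ2, ?_⟩
  · intro c hc
    rcases List.mem_append.mp hc with hc | hc
    · obtain ⟨h1, h2⟩ := hI1 c hc
      obtain ⟨ar, rel, sc⟩ := c
      simp only at h1 h2
      subst h1
      rw [eq_of_heq h2]
      exact hRΓ
    · rw [hI2, List.mem_flatMap] at hc
      obtain ⟨l, -, hc⟩ := hc
      obtain ⟨c0, hc0, rfl⟩ := List.mem_map.mp hc
      exact hI0 c0 hc0
  · rw [List.length_append, hlen, hI2, List.length_flatMap]
    have : ((List.finRange m).map fun l => (I0.map fun c =>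
        (⟨c.arity, c.rel, fun a => emb ((l, c.scope a), 2)⟩ : Constraint n)).length).sum =
        m * I0.length := by
      simp
    rw [this]
    omega
  · intro x
    have key : ∀ y : Fin n → ZMod 2, (∀ u, x u = y (emb u)) →
        (y ∈ Sol I2 ↔ ∀ l, blk l (x + τ) ∈ {s | s + (fun _ => β) ∈ Sol I0}) := by
      intro y hy
      have h2 : ∀ l, blk l (x + τ) + (fun _ => β) = fun a => y (emb ((l, a), 2)) := by
        intro l
        funext a
        simp only [blk, Pi.add_apply]
        rw [hτ2, ← hy, add_assoc, CharTwo.add_self_eq_zero, add_zero]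
      constructor
      · intro h l
        rw [Set.mem_ofPred_eq, h2 l]
        intro c hc
        exact h ⟨c.arity, c.rel, fun a => emb ((l, c.scope a), 2)⟩ (by
          rw [hI2, List.mem_flatMap]
          exact ⟨l, List.mem_finRange l, List.mem_map.mpr ⟨c, hc, rfl⟩⟩)
      · intro h c hc
        rw [hI2, List.mem_flatMap] at hc
        obtain ⟨l, -, hc⟩ := hc
        obtain ⟨c0, hc0, rfl⟩ := List.mem_map.mp hc
        have h3 := h l
        rw [Set.mem_ofPred_eq, h2 l] at h3
        exact h3 c0 hc0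
    constructor
    · rintro ⟨y, hy, h0, h1, hx⟩
      refine ⟨(hsol x).mp ⟨y, fun c hc => hy c (List.mem_append_left _ hc), h0, h1, hx⟩, ?_⟩
      exact (key y hx).mp fun c hc => hy c (List.mem_append_right _ hc)
    · rintro ⟨h1, h2⟩
      obtain ⟨y, hy, h0, h1', hx⟩ := (hsol x).mpr h1
      refine ⟨y, ?_, h0, h1', hx⟩
      intro c hc
      rcases List.mem_append.mp hc with hc | hc
      · exact hy c hc
      · exact (key y hx).mpr h2 c hc

end Pool.Agent.RelD
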