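import Pool.Agent.RelD.Defs

namespace Pool.Agent.RelD

open Finset Pool.Agent.Dichotomy

theorem mix_card_avoid {P : Type} [Fintype P] [DecidableEq P] (D : ℕ) (A B : Finset P) :
    (Finset.univ.filter fun f : Fin D → P → P => ∀ d, ∀ i ∈ A, f d i ∉ B).card =
      ((Fintype.card P - B.card) ^ A.card * Fintype.card P ^ (Fintype.card P - A.card)) ^ D := by
  classical
  have h1 : (Finset.univ.filter fun f : Fin D → P → P => ∀ d, ∀ i ∈ A, f d i ∉ B) =
      Fintype.piFinset fun _ : Fin D => Fintype.piFinset fun i : P =>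
        if i ∈ A then Finset.univ \ B else Finset.univ := by
    ext f
    simp only [Finset.mem_filter, Finset.mem_univ, true_and, Fintype.mem_piFinset]
    constructor
    · intro h d i
      by_cases hi : i ∈ A
      · rw [if_pos hi]; simp [h d i hi]
      · rw [if_neg hi]; exact Finset.mem_univ _
    · intro h d i hi
      have := h d i
      rw [if_pos hi] at this
      exact (Finset.mem_sdiff.1 this).2
  rw [h1, Fintype.card_piFinset]
  simp only [Fintype.card_piFinset, Finset.prod_const, Finset.card_univ, Fintype.card_fin]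
  congr 1
  have h2 : ∀ i : P, (if i ∈ A then Finset.univ \ B else (Finset.univ : Finset P)).card
      = if i ∈ A then Fintype.card P - B.card else Fintype.card P := by
    intro i
    by_cases hi : i ∈ A
    · rw [if_pos hi, if_pos hi, Finset.card_sdiff_of_subset (Finset.subset_univ _),
        Finset.card_univ]
    · rw [if_neg hi, if_neg hi, Finset.card_univ]
  simp only [h2]
  rw [Finset.prod_ite, Finset.prod_const, Finset.prod_const]
  congr 2
  · congr 1; ext i; simp
  · have : (Finset.univ.filter fun i : P => i ∉ A) = Finset.univ \ A := by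
      ext i; simp
    rw [this, Finset.card_sdiff_of_subset (Finset.subset_univ _), Finset.card_univ]

theorem mix_avoid_bound {Q e : ℕ} (hQ : 2 ≤ Q) (he : (1 - 1 / (Q : ℝ)) ^ e < 1 / 4) (m : ℕ)
    (hm : 1 ≤ m) (a b : ℕ) (hAm : a ≤ m) (hBm : b ≤ m) (hA : m ≤ Q * a) (hB : m ≤ Q * b) :
    (4 : ℝ) ^ m * ((((m - b) ^ a * m ^ (m - a)) ^ (Q * e) : ℕ) : ℝ) <
      ((m ^ m) ^ (Q * e) : ℕ) := by
  have hmr : (0 : ℝ) < m := by exact_mod_cast hm
  have hQr : (2 : ℝ) ≤ Q := by exact_mod_cast hQ
  have hQ0 : (0 : ℝ) < Q := by linarith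
  set x : ℝ := 1 - 1 / (Q : ℝ) with hx
  have hx0 : 0 ≤ x := by
    rw [hx, sub_nonneg, div_le_one hQ0]
    linarith
  have hx1 : x ≤ 1 := by
    have : 0 ≤ 1 / (Q : ℝ) := by positivity
    linarith
  have h1 : ((m - b : ℕ) : ℝ) ≤ x * m := by
    rw [Nat.cast_sub hBm]
    have h0 : (m : ℝ) ≤ Q * b := by exact_mod_cast hB
    have h00 : (m : ℝ) / Q ≤ b := by
      rw [div_le_iff₀ hQ0]
      linarith
    have : x * m = m - m / Q := by
      rw [hx]
      ring
    linarith
  have h2 : ((((m - b) ^ a * m ^ (m - a)) ^ (Q * e) : ℕ) : ℝ) ≤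
      (x ^ a * (m : ℝ) ^ m) ^ (Q * e) := by
    push_cast
    apply pow_le_pow_left₀ (by positivity)
    calc ((m - b : ℕ) : ℝ) ^ a * (m : ℝ) ^ (m - a)
        ≤ (x * m) ^ a * (m : ℝ) ^ (m - a) := by
          gcongr
      _ = x ^ a * (m : ℝ) ^ m := by
          rw [mul_pow, mul_assoc, ← pow_add, Nat.add_sub_cancel' hAm]
  have h3 : (x ^ a) ^ (Q * e) ≤ (x ^ e) ^ m := by
    rw [← pow_mul, ← pow_mul]
    apply pow_le_pow_of_le_one hx0 hx1
    calc e * m ≤ e * (Q * a) := Nat.mul_le_mul_left e hA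
      _ = a * (Q * e) := by ring
  have h4 : (x ^ e) ^ m < (1 / 4) ^ m := by
    apply pow_lt_pow_left₀ he (by positivity) (by omega)
  have h5 : (4 : ℝ) ^ m * (1 / 4) ^ m = 1 := by
    rw [← mul_pow]; norm_num
  have h6 : (0 : ℝ) < ((m : ℝ) ^ m) ^ (Q * e) := by positivity
  calc (4 : ℝ) ^ m * ((((m - b) ^ a * m ^ (m - a)) ^ (Q * e) : ℕ) : ℝ)
      ≤ 4 ^ m * (x ^ a * (m : ℝ) ^ m) ^ (Q * e) := by gcongr
    _ = 4 ^ m * (x ^ a) ^ (Q * e) * ((m : ℝ) ^ m) ^ (Q * e) := by
        rw [mul_pow]; ring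
    _ ≤ 4 ^ m * (x ^ e) ^ m * ((m : ℝ) ^ m) ^ (Q * e) := by gcongr
    _ < 4 ^ m * (1 / 4) ^ m * ((m : ℝ) ^ m) ^ (Q * e) := by gcongr
    _ = ((m ^ m) ^ (Q * e) : ℕ) := by rw [h5, one_mul]; push_cast; rfl

theorem mix_exists_mixing {P : Type} [Fintype P] [DecidableEq P] {Q e : ℕ} (hQ : 2 ≤ Q)
    (he : (1 - 1 / (Q : ℝ)) ^ e < 1 / 4) (hm : 1 ≤ Fintype.card P) :
    ∃ f : Fin (Q * e) → P → P,
      ∀ A B : Finset P, Fintype.card P ≤ Q * A.card → Fintype.card P ≤ Q * B.card →
        ∃ d, ∃ i ∈ A, f d i ∈ B := by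
  classical
  by_contra hcon
  push Not at hcon
  have hcov : (Finset.univ : Finset (Fin (Q * e) → P → P)) ⊆
      ((Finset.univ : Finset (Finset P × Finset P)).filter fun p =>
        Fintype.card P ≤ Q * p.1.card ∧ Fintype.card P ≤ Q * p.2.card).biUnion fun p =>
        Finset.univ.filter fun f : Fin (Q * e) → P → P => ∀ d, ∀ i ∈ p.1, f d i ∉ p.2 := by
    intro f _
    obtain ⟨A, B, hA, hB, h⟩ := hcon f
    rw [Finset.mem_biUnion]
    exact ⟨(A, B), Finset.mem_filter.2 ⟨Finset.mem_univ _, hA, hB⟩,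
      Finset.mem_filter.2 ⟨Finset.mem_univ _, h⟩⟩
  have h1 := (Finset.card_le_card hcov).trans Finset.card_biUnion_le
  have hcardf : (Finset.univ : Finset (Fin (Q * e) → P → P)).card =
      (Fintype.card P ^ Fintype.card P) ^ (Q * e) := by
    rw [Finset.card_univ, Fintype.card_fun, Fintype.card_fun, Fintype.card_fin]
  rw [hcardf] at h1
  set m := Fintype.card P with hmdef
  set PP := (Finset.univ : Finset (Finset P × Finset P)).filter fun p =>
        m ≤ Q * p.1.card ∧ m ≤ Q * p.2.card with hP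
  have hPc : (PP.card : ℝ) ≤ 4 ^ m := by
    have : PP.card ≤ 4 ^ m := by
      refine (Finset.card_filter_le _ _).trans ?_
      rw [Finset.card_univ, Fintype.card_prod, Fintype.card_finset, ← mul_pow]
      norm_num [hmdef]
    exact_mod_cast this
  have hTpos : (0 : ℝ) < ((m ^ m) ^ (Q * e) : ℕ) := by
    have : 0 < (m ^ m) ^ (Q * e) := by positivity
    exact_mod_cast this
  have h2 : (((m ^ m) ^ (Q * e) : ℕ) : ℝ) ≤ ∑ p ∈ PP,
      ((Finset.univ.filter fun f : Fin (Q * e) → P → P => ∀ d, ∀ i ∈ p.1, f d i ∉ p.2).card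
        : ℝ) := by
    exact_mod_cast h1
  have h3 : ∑ p ∈ PP,
      ((Finset.univ.filter fun f : Fin (Q * e) → P → P => ∀ d, ∀ i ∈ p.1, f d i ∉ p.2).card
        : ℝ) < (((m ^ m) ^ (Q * e) : ℕ) : ℝ) := by
    rcases PP.eq_empty_or_nonempty with hemp | hne
    · rw [hemp, Finset.sum_empty]; exact hTpos
    · have hb : ∀ p ∈ PP, ((Finset.univ.filter fun f : Fin (Q * e) → P → P =>
          ∀ d, ∀ i ∈ p.1, f d i ∉ p.2).card : ℝ) < (((m ^ m) ^ (Q * e) : ℕ) : ℝ) / 4 ^ m := by
        intro p hp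
        rw [hP, Finset.mem_filter] at hp
        rw [mix_card_avoid, lt_div_iff₀ (by positivity), mul_comm]
        exact mix_avoid_bound hQ he m hm _ _ (Finset.card_le_univ _) (Finset.card_le_univ _)
          hp.2.1 hp.2.2
      calc _ < ∑ _p ∈ PP, (((m ^ m) ^ (Q * e) : ℕ) : ℝ) / 4 ^ m :=
            Finset.sum_lt_sum_of_nonempty hne hb
        _ = PP.card * ((((m ^ m) ^ (Q * e) : ℕ) : ℝ) / 4 ^ m) := by
            rw [Finset.sum_const, nsmul_eq_mul]
        _ ≤ 4 ^ m * ((((m ^ m) ^ (Q * e) : ℕ) : ℝ) / 4 ^ m) := by gcongr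
        _ = _ := by field_simp
  linarith

/-- Relations of bounded degree on any finite set `P`, containing the diagonal, that meet `A × B`
for any two sets with at least `|P|/q` elements. -/
theorem exists_mix (q : ℕ) (hq : 1 ≤ q) : ∃ D : ℕ, ∀ (P : Type) [Fintype P] [DecidableEq P]
    [Nonempty P], ∃ E0 : Finset (P × P), (∀ p, (p, p) ∈ E0) ∧
      (∀ p, (E0.filter fun e => e.1 = p).card ≤ D) ∧
      (∀ p, (E0.filter fun e => e.2 = p).card ≤ D) ∧
      E0.card ≤ D * Fintype.card P ∧
      ∀ A B : Finset P, Fintype.card P ≤ q * A.card → Fintype.card P ≤ q * B.card →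
        ∃ a ∈ A, ∃ b ∈ B, (a, b) ∈ E0 := by
  have hQ : 2 ≤ 2 * q := by omega
  have hQr : (2 : ℝ) ≤ ((2 * q : ℕ) : ℝ) := by exact_mod_cast hQ
  have hx : (1 - 1 / ((2 * q : ℕ) : ℝ)) < 1 := by
    have : 0 < 1 / ((2 * q : ℕ) : ℝ) := by positivity
    linarith
  obtain ⟨e, he⟩ := exists_pow_lt_of_lt_one (by norm_num : (0 : ℝ) < 1 / 4) hx
  have he1 : 1 ≤ e := by
    rcases Nat.eq_zero_or_pos e with h | h
    · rw [h, pow_zero] at he
      norm_num at he
    · exact h
  set D0 : ℕ := 2 * q * e with hD0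
  have hD01 : 1 ≤ D0 := Nat.mul_pos (by omega) he1
  refine ⟨2 * q * D0 + 1, fun P _ _ _ => ?_⟩
  classical
  have hm : 1 ≤ Fintype.card P := Fintype.card_pos
  obtain ⟨f, hf⟩ := mix_exists_mixing (P := P) hQ he hm
  let deg : P → ℕ := fun j => (Finset.univ.filter fun z : Fin D0 × P => f z.1 z.2 = j).card
  let bad : Finset P := Finset.univ.filter fun j => 2 * q * D0 < deg j
  let E : Finset (P × P) := ((Finset.univ : Finset (Fin D0 × P)).filter fun z =>
    f z.1 z.2 ∉ bad).image fun z => (z.2, f z.1 z.2)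
  have memE : ∀ u v, (u, v) ∈ E ↔ ∃ d, f d u ∉ bad ∧ v = f d u := by
    intro u v
    simp only [E, Finset.mem_image, Finset.mem_filter, Finset.mem_univ, true_and, Prod.mk.injEq,
      Prod.exists]
    constructor
    · rintro ⟨d, i, h, rfl, rfl⟩; exact ⟨d, h, rfl⟩
    · rintro ⟨d, h, rfl⟩; exact ⟨d, u, h, rfl, rfl⟩
  let Dg : Finset (P × P) := (Finset.univ : Finset P).image fun p => (p, p)
  have memDg : ∀ z : P × P, z ∈ Dg ↔ z.1 = z.2 := by
    rintro ⟨a, b⟩
    simp only [Dg, Finset.mem_image, Finset.mem_univ, true_and, Prod.mk.injEq]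
    constructor
    · rintro ⟨c, rfl, rfl⟩; rfl
    · rintro rfl; exact ⟨_, rfl, rfl⟩
  have hqD : D0 ≤ 2 * q * D0 := Nat.le_mul_of_pos_left D0 (by omega)
  refine ⟨E ∪ Dg, fun p => ?_, fun p => ?_, fun p => ?_, ?_, ?_⟩
  · exact Finset.mem_union_right _ ((memDg _).2 rfl)
  · have hsub : ((E ∪ Dg).filter fun z => z.1 = p) ⊆
        insert (p, p) ((Finset.univ : Finset (Fin D0)).image fun d => (p, f d p)) := by
      rintro ⟨a, b⟩ hz
      rw [Finset.mem_filter, Finset.mem_union] at hz
      obtain ⟨hz, rfl⟩ := hz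
      rw [Finset.mem_insert, Finset.mem_image]
      rcases hz with hz | hz
      · obtain ⟨d, -, rfl⟩ := (memE _ _).1 hz
        exact Or.inr ⟨d, Finset.mem_univ _, rfl⟩
      · left
        have := (memDg _).1 hz
        simp only at this
        rw [← this]
    refine (Finset.card_le_card hsub).trans ((Finset.card_insert_le _ _).trans ?_)
    refine (Nat.succ_le_succ Finset.card_image_le).trans ?_
    rw [Finset.card_univ, Fintype.card_fin]
    omega
  · have hsub : ((E ∪ Dg).filter fun z => z.2 = p) ⊆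
        insert (p, p) (if p ∈ bad then ∅ else
          (Finset.univ.filter fun z : Fin D0 × P => f z.1 z.2 = p).image fun z => (z.2, p)) := by
      rintro ⟨a, b⟩ hz
      rw [Finset.mem_filter, Finset.mem_union] at hz
      obtain ⟨hz, rfl⟩ := hz
      rw [Finset.mem_insert]
      rcases hz with hz | hz
      · obtain ⟨d, hd, hb⟩ := (memE _ _).1 hz
        right
        simp only
        rw [if_neg (by rw [hb]; exact hd), Finset.mem_image]
        exact ⟨(d, a), Finset.mem_filter.2 ⟨Finset.mem_univ _, hb.symm⟩, rfl⟩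
      · left
        have := (memDg _).1 hz
        simp only at this
        rw [this]
    refine (Finset.card_le_card hsub).trans ((Finset.card_insert_le _ _).trans ?_)
    by_cases hp : p ∈ bad
    · rw [if_pos hp, Finset.card_empty]
      omega
    · rw [if_neg hp]
      have h1 : deg p ≤ 2 * q * D0 := by
        by_contra h
        push Not at h
        exact hp (Finset.mem_filter.2 ⟨Finset.mem_univ _, h⟩)
      have h2 := Finset.card_image_le (s := Finset.univ.filter fun z : Fin D0 × P =>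
        f z.1 z.2 = p) (f := fun z => (z.2, p))
      have h3 : (Finset.univ.filter fun z : Fin D0 × P => f z.1 z.2 = p).card ≤ 2 * q * D0 := h1
      omega
  · have h1 : E.card ≤ D0 * Fintype.card P := by
      refine Finset.card_image_le.trans ((Finset.card_filter_le _ _).trans ?_)
      rw [Finset.card_univ, Fintype.card_prod, Fintype.card_fin]
    have h2 : Dg.card ≤ Fintype.card P := by
      refine Finset.card_image_le.trans ?_
      rw [Finset.card_univ]
    have h3 := Finset.card_union_le E Dg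
    have h4 : D0 * Fintype.card P ≤ 2 * q * D0 * Fintype.card P :=
      Nat.mul_le_mul_right _ hqD
    rw [add_mul, one_mul]
    omega
  · intro A B hA hB
    have hbad : 2 * q * bad.card ≤ Fintype.card P := by
      have h1 : ∑ j ∈ bad, deg j ≤ D0 * Fintype.card P := by
        have h2 : ∑ j, deg j = D0 * Fintype.card P := by
          have := Finset.card_eq_sum_card_fiberwise (s := (Finset.univ : Finset (Fin D0 × P)))
            (t := (Finset.univ : Finset P)) (f := fun z => f z.1 z.2)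
            (fun z _ => Finset.mem_univ _)
          rw [Finset.card_univ, Fintype.card_prod, Fintype.card_fin] at this
          exact this.symm
        rw [← h2]
        exact Finset.sum_le_sum_of_subset (Finset.subset_univ _)
      have h3 : bad.card * (2 * q * D0) ≤ ∑ j ∈ bad, deg j := by
        rw [← smul_eq_mul, ← Finset.sum_const]
        refine Finset.sum_le_sum fun j hj => ?_
        exact (Finset.mem_filter.1 hj).2.le
      have h4 : D0 * (2 * q * bad.card) ≤ D0 * Fintype.card P := by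
        calc D0 * (2 * q * bad.card) = bad.card * (2 * q * D0) := by ring
          _ ≤ _ := h3.trans h1
      exact Nat.le_of_mul_le_mul_left h4 (by omega)
    have hB' : Fintype.card P ≤ 2 * q * (B \ bad).card := by
      have h1 := Finset.le_card_sdiff bad B
      have h2 : 2 * q * B.card ≤ 2 * q * ((B \ bad).card + bad.card) :=
        Nat.mul_le_mul_left _ (by omega)
      have h3 : 2 * q * B.card = q * B.card + q * B.card := by ring
      rw [mul_add] at h2
      omega
    have hA' : Fintype.card P ≤ 2 * q * A.card := by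
      have : q * A.card ≤ 2 * q * A.card := Nat.mul_le_mul_right _ (by omega)
      omega
    obtain ⟨d, i, hi, hfi⟩ := hf A (B \ bad) hA' hB'
    obtain ⟨h1, h2⟩ := Finset.mem_sdiff.1 hfi
    exact ⟨i, hi, f d i, h1, Finset.mem_union_left _ ((memE _ _).2 ⟨d, h2, rfl⟩)⟩

end Pool.Agent.RelD
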