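import Mathlib

namespace Pool.Agent.RelD

private theorem Num_pow_div_le {ρ : ℝ} (h0 : 0 < ρ) (h1 : ρ < 1) {L : ℕ} (hL : 0 < L) (k : ℕ) :
    ρ ^ (k / L) ≤ ρ⁻¹ * (ρ ^ ((1 : ℝ) / L)) ^ k := by
  have hLr : (0 : ℝ) < L := by exact_mod_cast hL
  have e1 : (ρ ^ ((1 : ℝ) / L)) ^ k = ρ ^ ((k : ℝ) / L) := by
    rw [← Real.rpow_natCast, ← Real.rpow_mul h0.le]
    congr 1; ring
  have e2 : ρ⁻¹ * ρ ^ ((k : ℝ) / L) = ρ ^ ((k : ℝ) / L - 1) := by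
    rw [Real.rpow_sub h0, Real.rpow_one]; ring
  rw [e1, e2, ← Real.rpow_natCast]
  apply Real.rpow_le_rpow_of_exponent_ge h0 h1.le
  have h2 : k < L * (k / L + 1) := Nat.lt_mul_div_succ k hL
  have h3 : (k : ℝ) < L * ((k / L : ℕ) + 1) := by exact_mod_cast h2
  rw [sub_le_iff_le_add, div_le_iff₀ hLr]
  linarith

private theorem Num_term2 (ρ1 : ℝ) (g0 : 0 < ρ1) (k q m x : ℕ) (hq : 54 ≤ q)
    (hx : q * x ≤ m * k) (hq2 : (2 : ℝ) ^ (18 * k) * ρ1 ^ q ≤ 1) :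
    (2 : ℝ) ^ (9 * x) * ρ1 ^ m ≤ √ρ1 ^ m := by
  have hs : √ρ1 * √ρ1 = ρ1 := Real.mul_self_sqrt g0.le
  have hs0 : 0 < √ρ1 := Real.sqrt_pos.2 g0
  have h1 : (2 : ℝ) ^ (9 * x) * √ρ1 ^ m ≤ 1 := by
    have h2 : ((2 : ℝ) ^ (9 * x) * √ρ1 ^ m) ^ (2 * q) ≤ 1 := by
      have e1 : ((2 : ℝ) ^ (9 * x) * √ρ1 ^ m) ^ (2 * q) = 2 ^ (18 * (q * x)) * (ρ1 ^ q) ^ m := by
        rw [mul_pow, ← pow_mul, ← pow_mul]
        congr 1
        · congr 1; ring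
        · rw [← pow_mul, show m * (2 * q) = 2 * (q * m) by ring, pow_mul, sq, hs]
      rw [e1]
      calc (2 : ℝ) ^ (18 * (q * x)) * (ρ1 ^ q) ^ m ≤ 2 ^ (18 * (m * k)) * (ρ1 ^ q) ^ m := by
            apply mul_le_mul_of_nonneg_right _ (by positivity)
            exact pow_le_pow_right₀ (by norm_num) (by omega)
        _ = ((2 : ℝ) ^ (18 * k) * ρ1 ^ q) ^ m := by
            rw [mul_pow, ← pow_mul (2 : ℝ), show 18 * (m * k) = 18 * k * m by ring]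
        _ ≤ 1 := pow_le_one₀ (by positivity) hq2
    exact (pow_le_one_iff_of_nonneg (by positivity) (by omega)).1 h2
  calc (2 : ℝ) ^ (9 * x) * ρ1 ^ m = ((2 : ℝ) ^ (9 * x) * √ρ1 ^ m) * √ρ1 ^ m := by
        rw [mul_assoc, ← mul_pow, hs]
    _ ≤ 1 * √ρ1 ^ m := mul_le_mul_of_nonneg_right h1 (by positivity)
    _ = _ := one_mul _

private theorem Num_term3 (k m x : ℕ) (hk : 1 ≤ k) (hx : 54 * x ≤ m * k) :
    (1 / 2 : ℝ) ^ (m * k) * 2 ^ (27 * x) ≤ √(1 / 2) ^ m := by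
  have hs : √(1 / 2 : ℝ) * √(1 / 2) = 1 / 2 := Real.mul_self_sqrt (by norm_num)
  have hs0 : 0 < √(1 / 2 : ℝ) := Real.sqrt_pos.2 (by norm_num)
  have hs1 : √(1 / 2 : ℝ) ≤ 1 := by
    rw [Real.sqrt_le_left (by norm_num)]
    norm_num
  have h1 : √(1 / 2 : ℝ) ^ (m * k) * 2 ^ (27 * x) ≤ 1 := by
    calc √(1 / 2 : ℝ) ^ (m * k) * 2 ^ (27 * x) ≤ √(1 / 2 : ℝ) ^ (54 * x) * 2 ^ (27 * x) := by
          apply mul_le_mul_of_nonneg_right _ (by positivity)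
          exact pow_le_pow_of_le_one hs0.le hs1 hx
      _ = 1 := by
          rw [show 54 * x = 2 * (27 * x) by ring, pow_mul, sq, hs, ← mul_pow]
          norm_num
  calc (1 / 2 : ℝ) ^ (m * k) * 2 ^ (27 * x)
      = √(1 / 2 : ℝ) ^ (m * k) * (√(1 / 2 : ℝ) ^ (m * k) * 2 ^ (27 * x)) := by
        rw [← mul_assoc, ← mul_pow, hs]
    _ ≤ √(1 / 2 : ℝ) ^ (m * k) * 1 := mul_le_mul_of_nonneg_left h1 (by positivity)
    _ ≤ √(1 / 2) ^ m := by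
        rw [mul_one]
        exact pow_le_pow_of_le_one hs0.le hs1 (Nat.le_mul_of_pos_right m hk)

private theorem Num_key (ρ ρ1 : ℝ) (h0 : 0 < ρ) (h1 : ρ < 1) (g0 : 0 < ρ1)
    (k q L : ℕ) (hk : 1 ≤ k) (hqL : 0 < q * L) (hq : 54 ≤ q)
    (hq2 : (2 : ℝ) ^ (18 * k) * ρ1 ^ q ≤ 1) (a r C : ℝ) (ha : a = ρ ^ ((1 : ℝ) / ((q * L : ℕ) : ℝ)))
    (ha0 : 0 < a) (hb0 : 0 < √ρ1) (he0 : 0 < √(1 / 2 : ℝ)) (hr0 : 0 < r) (har : a ≤ r)
    (hbr : √ρ1 ≤ r) (her : √(1 / 2 : ℝ) ≤ r) (hC : C = 4 * ρ⁻¹ + 256 + 196 * 2 ^ 18)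
    (m : ℕ) (s W : ℝ) (hs : 1 ≤ s) (hW : 0 ≤ W)
    (hineq : 1 ≤ 4 * s * ρ ^ (m * k / q / L) + 4 * s * 2 ^ (9 * (m * k / q) + 6) * ρ1 ^ m +
        (1 / 2) ^ (m * k) * (4 * s * 2 ^ (9 * (m * k / q) + 6) * W +
          3 * (4 * s) ^ 3 * (2 ^ (9 * (m * k / q) + 6)) ^ 3)) :
    1 ≤ C * r ^ m * (s + W) ^ 3 := by
  set t : ℝ := s + W with ht
  have ht1 : 1 ≤ t := by linarith
  have hst : s ≤ t := by linarith
  have hWt : W ≤ t := by linarith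
  have hs0 : 0 ≤ s := by linarith
  have ht3 : t ≤ t ^ 3 := by nlinarith [sq_nonneg t]
  have ht4 : t * t ≤ t ^ 3 := by nlinarith [sq_nonneg t]
  have hx1 : q * (m * k / q) ≤ m * k := Nat.mul_div_le _ _
  have hx2 : 54 * (m * k / q) ≤ m * k := (Nat.mul_le_mul_right _ hq).trans hx1
  set x : ℕ := m * k / q with hx
  have e1 : 4 * s * ρ ^ (x / L) ≤ 4 * ρ⁻¹ * r ^ m * t ^ 3 := by
    have f1 : x / L = m * k / (q * L) := by rw [hx, Nat.div_div_eq_div_mul]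
    have f2 : m / (q * L) ≤ m * k / (q * L) :=
      Nat.div_le_div_right (Nat.le_mul_of_pos_right m hk)
    have f3 : ρ ^ (x / L) ≤ ρ ^ (m / (q * L)) := by
      rw [f1]; exact pow_le_pow_of_le_one h0.le h1.le f2
    have f4 := Num_pow_div_le h0 h1 hqL m
    rw [← ha] at f4
    have f5 : a ^ m ≤ r ^ m := pow_le_pow_left₀ ha0.le har m
    calc 4 * s * ρ ^ (x / L) ≤ 4 * t ^ 3 * (ρ⁻¹ * r ^ m) := by
          apply mul_le_mul _ _ (by positivity) (by positivity)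
          · linarith
          · refine f3.trans (f4.trans ?_)
            apply mul_le_mul_of_nonneg_left f5 (by positivity)
      _ = _ := by ring
  have e2 : 4 * s * 2 ^ (9 * x + 6) * ρ1 ^ m ≤ 256 * r ^ m * t ^ 3 := by
    have f1 := Num_term2 ρ1 g0 k q m x hq hx1 hq2
    have f2 : √ρ1 ^ m ≤ r ^ m := pow_le_pow_left₀ hb0.le hbr m
    calc 4 * s * 2 ^ (9 * x + 6) * ρ1 ^ m = 256 * s * (2 ^ (9 * x) * ρ1 ^ m) := by
          rw [pow_add]; ring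
      _ ≤ 256 * t ^ 3 * r ^ m := by
          apply mul_le_mul _ (f1.trans f2) (by positivity) (by positivity)
          linarith
      _ = _ := by ring
  have e3 : (1 / 2 : ℝ) ^ (m * k) * (4 * s * 2 ^ (9 * x + 6) * W +
      3 * (4 * s) ^ 3 * (2 ^ (9 * x + 6)) ^ 3) ≤ 196 * 2 ^ 18 * r ^ m * t ^ 3 := by
    have f1 := Num_term3 k m x hk hx2
    have f2 : √(1 / 2 : ℝ) ^ m ≤ r ^ m := pow_le_pow_left₀ he0.le her m
    set w : ℝ := (2 : ℝ) ^ (9 * x + 6) with hw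
    have hw1 : 1 ≤ w := one_le_pow₀ (by norm_num)
    have hw3 : w ^ 3 = 2 ^ 18 * 2 ^ (27 * x) := by
      rw [hw, ← pow_mul, ← pow_add]
      congr 1; ring
    have f3 : 4 * s * w * W ≤ 4 * t ^ 3 * w ^ 3 := by
      calc 4 * s * w * W ≤ 4 * t * w * t := by gcongr
        _ = 4 * (t * t) * w := by ring
        _ ≤ 4 * t ^ 3 * w ^ 3 := by
            have : w ≤ w ^ 3 := by nlinarith [sq_nonneg w]
            gcongr
    have f4 : 3 * (4 * s) ^ 3 * w ^ 3 ≤ 192 * t ^ 3 * w ^ 3 := by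
      have f5 : s ^ 3 ≤ t ^ 3 := by gcongr
      have f6 : 3 * (4 * s) ^ 3 ≤ 192 * t ^ 3 := by nlinarith
      exact mul_le_mul_of_nonneg_right f6 (by positivity)
    calc (1 / 2 : ℝ) ^ (m * k) * (4 * s * w * W + 3 * (4 * s) ^ 3 * w ^ 3)
        ≤ (1 / 2 : ℝ) ^ (m * k) * (196 * t ^ 3 * w ^ 3) := by
          apply mul_le_mul_of_nonneg_left _ (by positivity)
          linarith
      _ = 196 * 2 ^ 18 * t ^ 3 * ((1 / 2 : ℝ) ^ (m * k) * 2 ^ (27 * x)) := by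
          rw [hw3]; ring
      _ ≤ 196 * 2 ^ 18 * t ^ 3 * r ^ m :=
          mul_le_mul_of_nonneg_left (f1.trans f2) (by positivity)
      _ = _ := by ring
  calc (1 : ℝ) ≤ _ := hineq
    _ ≤ 4 * ρ⁻¹ * r ^ m * t ^ 3 + 256 * r ^ m * t ^ 3 + 196 * 2 ^ 18 * r ^ m * t ^ 3 :=
        add_le_add (add_le_add e1 e2) e3
    _ = C * r ^ m * t ^ 3 := by rw [hC]; ring

/-- The final estimate.  `ρ`, `ρ1` are constants below 1, `q` is so large that `2 ^ (9k)` is at most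
`ρ1 ^ (- q / 2)` and `54 ≤ q`. -/
theorem num_final (ρ ρ1 : ℝ) (h0 : 0 < ρ) (h1 : ρ < 1) (g0 : 0 < ρ1) (g1 : ρ1 < 1)
    (k q L B : ℕ) (hk : 1 ≤ k) (hL : 1 ≤ L) (hB : 1 ≤ B) (hq : 54 ≤ q)
    (hq2 : (2 : ℝ) ^ (18 * k) * ρ1 ^ q ≤ 1) :
    ∃ c : ℝ, 0 < c ∧ ∀ (n m : ℕ), n ≤ B * (m + 1) → ∀ s W : ℝ, 1 ≤ s → 0 ≤ W →
      (1 ≤ m → 1 ≤ 4 * s * ρ ^ (m * k / q / L) + 4 * s * 2 ^ (9 * (m * k / q) + 6) * ρ1 ^ m +
        (1 / 2) ^ (m * k) * (4 * s * 2 ^ (9 * (m * k / q) + 6) * W +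
          3 * (4 * s) ^ 3 * (2 ^ (9 * (m * k / q) + 6)) ^ 3)) →
      (2 : ℝ) ^ (c * n) ≤ 2 * (s + W) := by
  have hqL : 0 < q * L := Nat.mul_pos (by omega) (by omega)
  have hqLr : (0 : ℝ) < ((q * L : ℕ) : ℝ) := by exact_mod_cast hqL
  set a : ℝ := ρ ^ ((1 : ℝ) / ((q * L : ℕ) : ℝ)) with ha
  have ha0 : 0 < a := Real.rpow_pos_of_pos h0 _
  have ha1 : a < 1 := Real.rpow_lt_one h0.le h1 (by positivity)
  have hb0 : 0 < √ρ1 := Real.sqrt_pos.2 g0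
  have hb1 : √ρ1 < 1 := by
    rw [Real.sqrt_lt' one_pos, one_pow]; exact g1
  have he0 : 0 < √(1 / 2 : ℝ) := Real.sqrt_pos.2 (by norm_num)
  have he1 : √(1 / 2 : ℝ) < 1 := by
    rw [Real.sqrt_lt' one_pos]; norm_num
  obtain ⟨r, hr0, hr1, har, hbr, her⟩ : ∃ r : ℝ, 0 < r ∧ r < 1 ∧ a ≤ r ∧ √ρ1 ≤ r ∧
      √(1 / 2 : ℝ) ≤ r :=
    ⟨max a (max (√ρ1) (√(1 / 2 : ℝ))), lt_max_of_lt_left ha0, max_lt ha1 (max_lt hb1 he1),
      le_max_left _ _, (le_max_left _ _).trans (le_max_right _ _),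
      (le_max_right _ _).trans (le_max_right _ _)⟩
  set C : ℝ := 4 * ρ⁻¹ + 256 + 196 * 2 ^ 18 with hC
  have hC0 : 0 < C := by positivity
  -- the key inequality
  have key : ∀ m : ℕ, 1 ≤ m → ∀ s W : ℝ, 1 ≤ s → 0 ≤ W →
      1 ≤ 4 * s * ρ ^ (m * k / q / L) + 4 * s * 2 ^ (9 * (m * k / q) + 6) * ρ1 ^ m +
        (1 / 2) ^ (m * k) * (4 * s * 2 ^ (9 * (m * k / q) + 6) * W +
          3 * (4 * s) ^ 3 * (2 ^ (9 * (m * k / q) + 6)) ^ 3) →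
      1 ≤ C * r ^ m * (s + W) ^ 3 := fun m _ s W hs hW h =>
    Num_key ρ ρ1 h0 h1 g0 k q L hk hqL hq hq2 a r C ha ha0 hb0 he0 hr0 har hbr her hC m s W hs hW h
  clear_value a C
  -- the base
  set d : ℝ := (r⁻¹) ^ ((1 : ℝ) / 6) with hd
  have hri : 1 < r⁻¹ := (one_lt_inv₀ hr0).2 hr1
  have hd1 : 1 < d := Real.one_lt_rpow hri (by norm_num)
  have hd0 : 0 < d := by linarith
  have hd6 : d ^ 6 = r⁻¹ := by
    rw [hd, ← Real.rpow_natCast, ← Real.rpow_mul (by linarith)]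
    norm_num
  set δ : ℝ := Real.logb 2 d with hδ
  have hδ0 : 0 < δ := Real.logb_pos (by norm_num) hd1
  have h2δ : (2 : ℝ) ^ δ = d := Real.rpow_logb (by norm_num) (by norm_num) hd0
  obtain ⟨m0, hm0⟩ := pow_unbounded_of_one_lt C (one_lt_pow₀ hd1 (show (3 : ℕ) ≠ 0 by norm_num))
  refine ⟨min δ 1 / (B * (m0 + 1 + 1)), by positivity, ?_⟩
  intro n m hn s W hs hW hineq
  set c : ℝ := min δ 1 / (B * (m0 + 1 + 1)) with hc
  have hBr : (1 : ℝ) ≤ B := by exact_mod_cast hB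
  have hB0 : (0 : ℝ) < B := by linarith
  have hnr : (n : ℝ) ≤ B * (m + 1) := by exact_mod_cast hn
  have hm0r : (0 : ℝ) ≤ m0 := Nat.cast_nonneg _
  have hmr : (0 : ℝ) ≤ m := Nat.cast_nonneg _
  have hmin0 : 0 < min δ 1 := lt_min hδ0 one_pos
  rcases Nat.lt_or_ge m (m0 + 1) with hm | hm
  · -- small m
    have hm' : (m : ℝ) + 1 ≤ m0 + 1 + 1 := by
      have : (m : ℝ) < m0 + 1 := by exact_mod_cast hm
      linarith
    have h3 : c * n ≤ 1 := by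
      rw [hc, div_mul_eq_mul_div, div_le_iff₀ (by positivity), one_mul]
      calc min δ 1 * n ≤ 1 * (B * (m + 1)) := by
            apply mul_le_mul (min_le_right _ _) hnr (by positivity) (by norm_num)
        _ ≤ B * (m0 + 1 + 1) := by rw [one_mul]; gcongr
    calc (2 : ℝ) ^ (c * n) ≤ 2 ^ (1 : ℝ) := Real.rpow_le_rpow_of_exponent_le (by norm_num) h3
      _ = 2 := Real.rpow_one _
      _ ≤ 2 * (s + W) := by linarith
  · have hcn : c * n ≤ δ * m + 1 := by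
      have h2 : c * n ≤ min δ 1 * (m + 1) := by
        rw [hc, div_mul_eq_mul_div, div_le_iff₀ (by positivity)]
        calc min δ 1 * n ≤ min δ 1 * (B * (m + 1)) := by gcongr
          _ ≤ min δ 1 * (B * (m + 1)) * (m0 + 1 + 1) := by
              apply le_mul_of_one_le_right (by positivity); linarith
          _ = min δ 1 * (m + 1) * (B * (m0 + 1 + 1)) := by ring
      have h3 : min δ 1 * (m + 1) ≤ δ * m + 1 := by
        have e1 : min δ 1 * m ≤ δ * m := mul_le_mul_of_nonneg_right (min_le_left _ _) hmr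
        have e2 : min δ 1 ≤ 1 := min_le_right _ _
        linarith
      linarith
    have hm1 : 1 ≤ m := by omega
    have h6 := key m hm1 s W hs hW (hineq hm1)
    set t : ℝ := s + W with ht
    have ht0 : 0 < t := by linarith
    -- d ^ m ≤ t
    have h7 : d ^ m ≤ t := by
      have h8 : (d ^ m) ^ 3 ≤ t ^ 3 := by
        have h9 : C ≤ (d ^ m) ^ 3 := by
          refine hm0.le.trans ?_
          rw [← pow_mul, ← pow_mul]
          exact pow_le_pow_right₀ hd1.le (by omega)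
        have h10 : (d ^ m) ^ 6 * r ^ m = 1 := by
          rw [← pow_mul, mul_comm m 6, pow_mul, hd6, ← mul_pow, inv_mul_cancel₀ hr0.ne', one_pow]
        have h11 : (d ^ m) ^ 6 ≤ C * t ^ 3 := by
          have h12 : (d ^ m) ^ 6 * 1 ≤ (d ^ m) ^ 6 * (C * r ^ m * t ^ 3) :=
            mul_le_mul_of_nonneg_left h6 (by positivity)
          calc (d ^ m) ^ 6 = (d ^ m) ^ 6 * 1 := (mul_one _).symm
            _ ≤ (d ^ m) ^ 6 * (C * r ^ m * t ^ 3) := h12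
            _ = ((d ^ m) ^ 6 * r ^ m) * (C * t ^ 3) := by ring
            _ = C * t ^ 3 := by rw [h10, one_mul]
        have h13 : (d ^ m) ^ 3 * (d ^ m) ^ 3 ≤ (d ^ m) ^ 3 * t ^ 3 := by
          calc (d ^ m) ^ 3 * (d ^ m) ^ 3 = (d ^ m) ^ 6 := by ring
            _ ≤ C * t ^ 3 := h11
            _ ≤ (d ^ m) ^ 3 * t ^ 3 := mul_le_mul_of_nonneg_right h9 (by positivity)
        exact le_of_mul_le_mul_left h13 (by positivity)
      exact le_of_pow_le_pow_left₀ (by norm_num) ht0.le h8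
    calc (2 : ℝ) ^ (c * n) ≤ 2 ^ (δ * m + 1) :=
          Real.rpow_le_rpow_of_exponent_le (by norm_num) hcn
      _ = 2 * d ^ m := by
          rw [Real.rpow_add (by norm_num), Real.rpow_one, Real.rpow_mul (by norm_num),
            Real.rpow_natCast, h2δ]
          ring
      _ ≤ 2 * t := by linarith

end Pool.Agent.RelD
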