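import Pool.Agent.RelD.Defs

namespace Pool.Agent.RelD

open Finset Pool.Agent.Dichotomy

/-- A change of the values which keeps all constraints. -/
theorem patch_core {m k : ℕ} (E0 : Finset (Pt m k × Pt m k)) (K : Finset (Fin k))
    (S0 : Set (Fin k → ZMod 2)) (x : Vt m k → ZMod 2) (hx : x ∈ Tgt E0 K S0) (P : Pt m k)
    (s : Fin k → ZMod 2) (hs : s ∈ S0) (y : Vt m k → ZMod 2)
    (h0 : ∀ R, R ≠ P → y (R, 0) = 1 ∨ y (R, 0) = x (R, 0))
    (h0' : ∀ R, R ≠ P → R.1 = P.1 → y (R, 0) = 1)
    (hA : ∀ R S, (R, S) ∈ E0 → y (R, 0) = 1 ∨ y (S, 1) = 1)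
    (h2 : ∀ R : Pt m k, R.1 = P.1 → y (R, 2) = s R.2)
    (h2' : ∀ R : Pt m k, R.1 ≠ P.1 → y (R, 2) = x (R, 2))
    (h3 : P.2 ∈ K → y (P, 0) = 1 ∨ y (P, 2) = 1) : y ∈ Tgt E0 K S0 := by
  have key : ∀ u v : Vt m k, Arc E0 K u v → y u = 1 ∨ y v = 1 := by
    rintro ⟨R, a⟩ ⟨S, b⟩ h
    rcases h with ⟨h4, h5, h6⟩ | ⟨h4, h5, h6, h7⟩
    · simp only at h4 h5 h6
      subst h4 h5
      exact hA R S h6
    · simp only at h4 h5 h6 h7
      subst h4 h5 h6
      by_cases hR : R = P
      · subst hR
        exact h3 h7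
      · by_cases hj : R.1 = P.1
        · exact Or.inl (h0' R hR hj)
        · rcases h0 R hR with h8 | h8
          · exact Or.inl h8
          · rw [h8, h2' R hj]
            exact hx.1 (R, 0) (R, 2) (Or.inl (Or.inr ⟨rfl, rfl, rfl, h7⟩))
  refine ⟨fun u v huv => ?_, fun j => ?_⟩
  · rcases huv with h | h
    · exact key u v h
    · exact (key v u h).symm
  · by_cases hj : j = P.1
    · have h4 : blk j y = s := by
        funext i
        exact h2 (j, i) hj
      rw [h4]
      exact hs
    · have h4 : blk j y = blk j x := by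
        funext i
        exact h2' (j, i) hj
      rw [h4]
      exact hx.2 j

theorem patch_arc {m k : ℕ} (E0 : Finset (Pt m k × Pt m k)) (K : Finset (Fin k))
    (S0 : Set (Fin k → ZMod 2)) (hK : ∀ i ∈ K, ∀ b : ZMod 2, ∃ s ∈ S0, s i = b)
    (u v : Vt m k) (huv : Arc E0 K u v) (p q : ZMod 2) (hpq : p = 1 ∨ q = 1)
    (x : Vt m k → ZMod 2) (hx : x ∈ Tgt E0 K S0) :
    ∃ y ∈ Tgt E0 K S0, (∀ w, w ≠ u → w ≠ v → ¬ (GrB E0 K).Adj u w → ¬ (GrB E0 K).Adj v w →
      y w = x w) ∧ y u = p ∧ y v = q := by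
  classical
  obtain ⟨P, a⟩ := u
  obtain ⟨Q, b⟩ := v
  have hblock : ∀ w : Vt m k, w ≠ (P, a) → ¬ (GrB E0 K).Adj (P, a) w → w.1.1 ≠ P.1 := by
    intro w h1 h2 h3
    exact h2 ⟨fun h => h1 h.symm, Or.inr h3.symm⟩
  rcases huv with ⟨h4, h5, h6⟩ | ⟨h4, h5, h6, h7⟩
  · simp only at h4 h5 h6
    subst h4 h5
    obtain ⟨s, hs, hsP⟩ : ∃ s ∈ S0, P.2 ∈ K → s P.2 = 1 := by
      by_cases hP : P.2 ∈ K
      · obtain ⟨s, hs, hs1⟩ := hK P.2 hP 1
        exact ⟨s, hs, fun _ => hs1⟩
      · exact ⟨blk P.1 x, hx.2 P.1, fun h => absurd h hP⟩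
    refine ⟨fun w => if w.2 = 0 then (if w.1 = P then p else if w.1.1 = P.1 ∨ (w.1, Q) ∈ E0
      then 1 else x w) else if w.2 = 1 then (if w.1 = Q then q else if (P, w.1) ∈ E0 then 1
      else x w) else (if w.1.1 = P.1 then s w.1.2 else x w), ?_, ?_, ?_, ?_⟩
    · refine patch_core E0 K S0 x hx P s hs _ ?_ ?_ ?_ ?_ ?_ ?_
      · intro R hR
        simp only [if_true, if_neg hR]
        split_ifs
        · exact Or.inl rfl
        · exact Or.inr rfl
      · intro R hR hj
        simp only [if_true, if_neg hR]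
        rw [if_pos (Or.inl hj)]
      · intro R S hRS
        have h10 : (1 : Fin 3) ≠ 0 := by decide
        simp only [if_true, if_neg h10]
        by_cases hR : R = P
        · subst hR
          by_cases hS : S = Q
          · subst hS
            simpa using hpq
          · right
            rw [if_neg hS, if_pos hRS]
        · by_cases hS : S = Q
          · subst hS
            left
            rw [if_neg hR, if_pos (Or.inr hRS)]
          · rw [if_neg hR, if_neg hS]
            have h8 := hx.1 (R, 0) (S, 1) (Or.inl (Or.inl ⟨rfl, rfl, hRS⟩))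
            rcases h8 with h8 | h8
            · left
              split_ifs
              · rfl
              · exact h8
            · right
              split_ifs
              · rfl
              · exact h8
      · intro R hj
        have h20 : (2 : Fin 3) ≠ 0 := by decide
        have h21 : (2 : Fin 3) ≠ 1 := by decide
        simp only [if_neg h20, if_neg h21, if_pos hj]
      · intro R hj
        have h20 : (2 : Fin 3) ≠ 0 := by decide
        have h21 : (2 : Fin 3) ≠ 1 := by decide
        simp only [if_neg h20, if_neg h21, if_neg hj]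
      · intro hP
        have h20 : (2 : Fin 3) ≠ 0 := by decide
        have h21 : (2 : Fin 3) ≠ 1 := by decide
        right
        simp only [if_neg h20, if_neg h21, if_true]
        exact hsP hP
    · rintro ⟨R, c⟩ h8 h9 h10 h11
      have h12 := hblock _ h8 h10
      simp only at h12 ⊢
      split_ifs with h13 h14 h15 h16 h17 h18
      · exact absurd (by rw [h14]) h12
      · exfalso
        subst h13
        rcases h15 with h15 | h15
        · exact h12 h15
        · exact h11 ⟨fun h => h9 h.symm, Or.inl (Or.inr (Or.inl ⟨rfl, rfl, h15⟩))⟩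
      · rfl
      · exfalso
        subst h16 h17
        exact h9 rfl
      · exfalso
        subst h16
        exact h10 ⟨fun h => h8 h.symm, Or.inl (Or.inl (Or.inl ⟨rfl, rfl, h18⟩))⟩
      · rfl
      · rfl
    · simp
    · simp
  · simp only at h4 h5 h6 h7
    subst h4 h5 h6
    obtain ⟨s, hs, hsP⟩ := hK P.2 h7 q
    refine ⟨fun w => if w.2 = 0 then (if w.1 = P then p else if w.1.1 = P.1
      then 1 else x w) else if w.2 = 1 then (if (P, w.1) ∈ E0 then 1
      else x w) else (if w.1.1 = P.1 then s w.1.2 else x w), ?_, ?_, ?_, ?_⟩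
    · refine patch_core E0 K S0 x hx P s hs _ ?_ ?_ ?_ ?_ ?_ ?_
      · intro R hR
        simp only [if_true, if_neg hR]
        split_ifs
        · exact Or.inl rfl
        · exact Or.inr rfl
      · intro R hR hj
        simp only [if_true, if_neg hR]
        rw [if_pos hj]
      · intro R S hRS
        have h10 : (1 : Fin 3) ≠ 0 := by decide
        simp only [if_true, if_neg h10]
        by_cases hR : R = P
        · subst hR
          right
          rw [if_pos hRS]
        · rw [if_neg hR]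
          have h8 := hx.1 (R, 0) (S, 1) (Or.inl (Or.inl ⟨rfl, rfl, hRS⟩))
          rcases h8 with h8 | h8
          · left
            split_ifs
            · rfl
            · exact h8
          · right
            split_ifs
            · rfl
            · exact h8
      · intro R hj
        have h20 : (2 : Fin 3) ≠ 0 := by decide
        have h21 : (2 : Fin 3) ≠ 1 := by decide
        simp only [if_neg h20, if_neg h21, if_pos hj]
      · intro R hj
        have h20 : (2 : Fin 3) ≠ 0 := by decide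
        have h21 : (2 : Fin 3) ≠ 1 := by decide
        simp only [if_neg h20, if_neg h21, if_neg hj]
      · intro hP
        have h20 : (2 : Fin 3) ≠ 0 := by decide
        have h21 : (2 : Fin 3) ≠ 1 := by decide
        simp only [if_neg h20, if_neg h21, if_true]
        rw [hsP]
        exact hpq
    · rintro ⟨R, c⟩ h8 h9 h10 h11
      have h12 := hblock _ h8 h10
      simp only at h12 ⊢
      split_ifs with h13 h14 h16 h18
      · exact absurd (by rw [h14]) h12
      · rfl
      · exfalso
        subst h16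
        exact h10 ⟨fun h => h8 h.symm, Or.inl (Or.inl (Or.inl ⟨rfl, rfl, h18⟩))⟩
      · rfl
      · rfl
    · simp
    · have h20 : (2 : Fin 3) ≠ 0 := by decide
      have h21 : (2 : Fin 3) ≠ 1 := by decide
      simp only [if_neg h20, if_neg h21, if_true]
      exact hsP

/-- Every edge can be given each of its three patterns by changes near the edge. -/
theorem tgt_patch {m k : ℕ} (E0 : Finset (Pt m k × Pt m k)) (K : Finset (Fin k))
    (S0 : Set (Fin k → ZMod 2)) (hK : ∀ i ∈ K, ∀ b : ZMod 2, ∃ s ∈ S0, s i = b)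
    (hK' : ∀ i ∉ K, ∀ s ∈ S0, ∀ s' ∈ S0, s i = s' i)
    (u v : Vt m k) (huv : (Gr E0 K).Adj u v) (p q : ZMod 2) (hpq : p = 1 ∨ q = 1)
    (x : Vt m k → ZMod 2) (hx : x ∈ Tgt E0 K S0) :
    ∃ y ∈ Tgt E0 K S0, (∀ w, w ≠ u → w ≠ v → ¬ (GrB E0 K).Adj u w → ¬ (GrB E0 K).Adj v w →
      y w = x w) ∧ y u = p ∧ y v = q := by
  rcases huv with h | h
  · exact patch_arc E0 K S0 hK u v h p q hpq x hx
  · obtain ⟨y, hy, h1, h2, h3⟩ := patch_arc E0 K S0 hK v u h q p hpq.symm x hx
    exact ⟨y, hy, fun w h4 h5 h6 h7 => h1 w h5 h4 h7 h6, h3, h2⟩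

/-- The degrees. -/
theorem grB_degree {m k D : ℕ} (E0 : Finset (Pt m k × Pt m k)) (K : Finset (Fin k))
    (h1 : ∀ p, (E0.filter fun e => e.1 = p).card ≤ D)
    (h2 : ∀ p, (E0.filter fun e => e.2 = p).card ≤ D) (v : Vt m k) :
    ((GrB E0 K).neighborSet v).ncard ≤ D + 3 * k := by
  classical
  obtain ⟨P, a⟩ := v
  let B : Finset (Vt m k) := (Finset.univ : Finset (Fin k × Fin 3)).image
    fun t => ((P.1, t.1), t.2)
  have hB : B.card ≤ 3 * k := by
    refine card_image_le.trans ?_
    rw [card_univ, Fintype.card_prod, Fintype.card_fin, Fintype.card_fin, mul_comm]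
  have hBm : ∀ w : Vt m k, P.1 = w.1.1 → w ∈ B := by
    rintro ⟨⟨j, i⟩, c⟩ h
    rw [mem_image]
    refine ⟨(i, c), mem_univ _, ?_⟩
    simp only at h ⊢
    rw [h]
  obtain ⟨F, hF, hFm⟩ : ∃ F : Finset (Vt m k), F.card ≤ D ∧ ∀ w : Vt m k,
      (Gr E0 K).Adj (P, a) w → w ∈ F ∨ w ∈ B := by
    by_cases ha : a = 0
    · subst ha
      refine ⟨(E0.filter fun e => e.1 = P).image fun e => (e.2, 1),
        card_image_le.trans (h1 P), ?_⟩
      rintro ⟨Q, c⟩ ((⟨h3, h4, h5⟩ | ⟨h3, h4, h5, h6⟩) | (⟨h3, h4, h5⟩ | ⟨h3, h4, h5, h6⟩))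
      · left
        simp only at h4 h5
        subst h4
        rw [mem_image]
        exact ⟨(P, Q), mem_filter.2 ⟨h5, rfl⟩, rfl⟩
      · right
        simp only at h5
        subst h5
        exact hBm _ rfl
      · simp only at h4
        exact absurd h4 (by decide)
      · simp only at h4
        exact absurd h4 (by decide)
    · refine ⟨(E0.filter fun e => e.2 = P).image fun e => (e.1, 0),
        card_image_le.trans (h2 P), ?_⟩
      rintro ⟨Q, c⟩ ((⟨h3, h4, h5⟩ | ⟨h3, h4, h5, h6⟩) | (⟨h3, h4, h5⟩ | ⟨h3, h4, h5, h6⟩))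
      · exact absurd h3 ha
      · exact absurd h3 ha
      · left
        simp only at h3 h5
        subst h3
        rw [mem_image]
        exact ⟨(Q, P), mem_filter.2 ⟨h5, rfl⟩, rfl⟩
      · right
        simp only at h5
        subst h5
        exact hBm _ rfl
  have hsub : (GrB E0 K).neighborSet (P, a) ⊆ ((F ∪ B : Finset (Vt m k)) : Set (Vt m k)) := by
    intro w hw
    rw [mem_coe, mem_union]
    rcases hw.2 with h | h
    · exact hFm w h
    · exact Or.inr (hBm w h)
  calc ((GrB E0 K).neighborSet (P, a)).ncard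
      ≤ ((F ∪ B : Finset (Vt m k)) : Set (Vt m k)).ncard :=
        Set.ncard_le_ncard hsub (Finset.finite_toSet _)
    _ = (F ∪ B).card := Set.ncard_coe_finset _
    _ ≤ F.card + B.card := card_union_le _ _
    _ ≤ D + 3 * k := Nat.add_le_add hF hB

end Pool.Agent.RelD
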