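import Pool.Agent.RelD.Defs

namespace Pool.Agent.RelD

open Finset Pool.Agent.Dichotomy

/-- the cluster of the position `p` lies in `F` and outside of `F'` -/
def StarPure {m k : ℕ} (K : Finset (Fin k)) (F F' : Set (Vt m k)) (p : Pt m k) : Prop :=
  ((p, 0) ∈ F ∧ (p, 0) ∉ F') ∧ ((p, 1) ∈ F ∧ (p, 1) ∉ F') ∧
    (p.2 ∈ K → (p, 2) ∈ F ∧ (p, 2) ∉ F')

/-- The expansion hypothesis for the block graph. -/
theorem star_of_mix {m k q : ℕ} (hq : 1 ≤ q) (E0 : Finset (Pt m k × Pt m k))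
    (K : Finset (Fin k)) (hdiag : ∀ p, (p, p) ∈ E0)
    (hmix : ∀ A B : Finset (Pt m k), m * k ≤ q * A.card → m * k ≤ q * B.card →
      1 ≤ A.card → 1 ≤ B.card → ∃ a ∈ A, ∃ b ∈ B, (a, b) ∈ E0) :
    Star (Gr E0 K) (XK m K) (9 * (m * k / q) + 6) (m * k / q) := by
  classical
  intro F F' hF hF'
  by_contra hcon
  set t : ℕ := m * k / q with ht
  set S : Set (Vt m k) := {u | ∃ v, (Gr E0 K).Adj u v ∧
    ¬ ((u ∈ F ∧ u ∉ F') ∧ (v ∈ F ∧ v ∉ F')) ∧
      ¬ ((u ∈ F' ∧ u ∉ F) ∧ (v ∈ F' ∧ v ∉ F))} with hS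
  have hSlt : S.ncard < t := lt_of_not_ge hcon
  have good : ∀ u v, (Gr E0 K).Adj u v → u ∉ S → ((u ∈ F ∧ u ∉ F') ∧ (v ∈ F ∧ v ∉ F')) ∨
      ((u ∈ F' ∧ u ∉ F) ∧ (v ∈ F' ∧ v ∉ F)) := by
    intro u v huv hu
    by_contra h
    rw [not_or] at h
    exact hu ⟨v, huv, h.1, h.2⟩
  have hpure : ∀ p : Pt m k, ((p, 0) : Vt m k) ∉ S → StarPure K F F' p ∨ StarPure K F' F p := by
    intro p hp
    have e1 : (Gr E0 K).Adj (p, 0) (p, 1) := Or.inl (Or.inl ⟨rfl, rfl, hdiag p⟩)
    have e2 : p.2 ∈ K → (Gr E0 K).Adj (p, 0) (p, 2) := fun h => Or.inl (Or.inr ⟨rfl, rfl, rfl, h⟩)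
    rcases good _ _ e1 hp with h1 | h1
    · left
      refine ⟨h1.1, h1.2, fun hK => ?_⟩
      rcases good _ _ (e2 hK) hp with h2 | h2
      · exact h2.2
      · exact absurd h1.1.1 h2.1.2
    · right
      refine ⟨h1.1, h1.2, fun hK => ?_⟩
      rcases good _ _ (e2 hK) hp with h2 | h2
      · exact absurd h1.1.1 h2.1.2
      · exact h2.2
  set Bd : Finset (Pt m k) := Finset.univ.filter fun p => ((p, 0) : Vt m k) ∈ S with hBd
  have hinj : Function.Injective fun p : Pt m k => ((p, 0) : Vt m k) := fun a b h =>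
    congrArg Prod.fst h
  have hsubS : ∀ A : Finset (Pt m k), (∀ p ∈ A, ((p, 0) : Vt m k) ∈ S) → A.card ≤ S.ncard := by
    intro A hA
    rw [← Finset.card_image_of_injective A hinj, ← Set.ncard_coe_finset]
    refine Set.ncard_le_ncard ?_ (Set.toFinite _)
    intro u hu
    rw [Finset.mem_coe, Finset.mem_image] at hu
    obtain ⟨p, hp, rfl⟩ := hu
    exact hA p hp
  have hBdc : Bd.card ≤ S.ncard := hsubS Bd fun p hp => (Finset.mem_filter.1 hp).2
  have hcount : ∀ G G' : Set (Vt m k), (∀ p : Pt m k, ((p, 0) : Vt m k) ∉ S →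
      StarPure K G G' p ∨ StarPure K G' G p) → 9 * t + 6 ≤
        (G ∩ ((XK m K : Finset (Vt m k)) : Set (Vt m k))).ncard →
      2 * t + 3 ≤ (Finset.univ.filter fun p : Pt m k => StarPure K G G' p).card := by
    intro G G' hG hGc
    set PF : Finset (Pt m k) := Finset.univ.filter fun p : Pt m k => StarPure K G G' p with hPF
    have hsub : G ∩ ((XK m K : Finset (Vt m k)) : Set (Vt m k)) ⊆
        (((PF ∪ Bd) ×ˢ (Finset.univ : Finset (Fin 3)) : Finset (Vt m k)) : Set (Vt m k)) := by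
      rintro ⟨p, i⟩ ⟨hu, hX⟩
      rw [Finset.mem_coe, Finset.mem_product]
      refine ⟨?_, Finset.mem_univ _⟩
      rw [Finset.mem_union]
      by_cases hpS : ((p, 0) : Vt m k) ∈ S
      · right
        exact Finset.mem_filter.2 ⟨Finset.mem_univ _, hpS⟩
      · left
        refine Finset.mem_filter.2 ⟨Finset.mem_univ _, ?_⟩
        rcases hG p hpS with h | h
        · exact h
        · exfalso
          rw [Finset.mem_coe, XK, Finset.mem_filter] at hX
          fin_cases i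
          · exact h.1.2 hu
          · exact h.2.1.2 hu
          · exact (h.2.2 (hX.2 rfl)).2 hu
    have h1 := Set.ncard_le_ncard hsub (Set.toFinite _)
    rw [Set.ncard_coe_finset, Finset.card_product, Finset.card_univ, Fintype.card_fin] at h1
    have h2 := Finset.card_union_le PF Bd
    omega
  have h1 := hcount F F' hpure hF
  have h2 := hcount F' F (fun p hp => (hpure p hp).symm) hF'
  set PF : Finset (Pt m k) := Finset.univ.filter fun p : Pt m k => StarPure K F F' p with hPF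
  set PF' : Finset (Pt m k) := Finset.univ.filter fun p : Pt m k => StarPure K F' F p with hPF'
  have hlt : m * k < q * (t + 1) := by
    rw [ht]
    exact Nat.lt_mul_div_succ (m * k) (by omega)
  set A : Finset (Pt m k) := PF.filter fun p => ∀ p' ∈ PF', (p, p') ∉ E0 with hA
  have hAc : A.card ≤ t := by
    by_contra hAt
    push Not at hAt
    have h3 : m * k ≤ q * A.card := hlt.le.trans (Nat.mul_le_mul_left q hAt)
    have h4 : m * k ≤ q * PF'.card := hlt.le.trans (Nat.mul_le_mul_left q (by omega))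
    obtain ⟨a, ha, b, hb, hab⟩ := hmix A PF' h3 h4 (by omega) (by omega)
    exact (Finset.mem_filter.1 ha).2 b hb hab
  have h5 : (PF \ A).card ≤ S.ncard := by
    refine hsubS _ fun p hp => ?_
    rw [Finset.mem_sdiff] at hp
    have h6 : ∃ p' ∈ PF', (p, p') ∈ E0 := by
      by_contra h7
      push Not at h7
      exact hp.2 (Finset.mem_filter.2 ⟨hp.1, h7⟩)
    obtain ⟨p', hp', he⟩ := h6
    have h8 : StarPure K F F' p := (Finset.mem_filter.1 hp.1).2
    have h9 : StarPure K F' F p' := (Finset.mem_filter.1 hp').2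
    refine ⟨(p', 1), Or.inl (Or.inl ⟨rfl, rfl, he⟩), fun h10 => ?_, fun h10 => ?_⟩
    · exact h10.2.2 h9.2.1.1
    · exact h10.1.2 h8.1.1
  have h6 := Finset.le_card_sdiff A PF
  omega

end Pool.Agent.RelD
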