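import Pool.Agent.RelD.Derived
import Pool.Agent.RelD.Mix
import Pool.Agent.RelD.Star
import Pool.Agent.RelD.Sum
import Pool.Agent.RelD.Patch
import Pool.Agent.RelD.Inst
import Pool.Agent.RelD.Num

/-!
The relative dichotomy.
-/

namespace Pool.Agent.RelD

open Finset Pool.Agent.Dichotomy

theorem rho_pos (D : ℕ) : (0 : ℝ) < 2 ^ D / (2 ^ D + 1) := by positivity

theorem rho_lt (D : ℕ) : (2 : ℝ) ^ D / (2 ^ D + 1) < 1 := by
  rw [div_lt_one (by positivity)]; linarith

/-- **Lower bound.**  If some instance over `Γ` has a solution set outside the class, then some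
instances over `Γ` of linear size need exponentially many gates. -/
theorem hard {L : RelClass} (hL : Closed L) {Γ : Language} {k : ℕ} (I0 : List (Constraint k))
    (hI0 : Over Γ I0) (hS1 : Sol I0 ∉ L k) :
    ∃ c : ℝ, 0 < c ∧ ∃ C : ℕ, ∀ n : ℕ, ∃ I : List (Constraint n),
      Over Γ I ∧ I.length ≤ C * n ∧
      ∀ (g : Type) (_ : Fintype g) (rk : g → ℕ) (W : ℕ) (M : g → Set (Fin n → ZMod 2)),
        IsProg (L n) rk W M → (∃ v, M v = Sol I) →
          (2 : ℝ) ^ (c * n) ≤ 2 * (Fintype.card g + W) := by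
  classical
  have hnaff : ¬ IsAffine (Sol I0) := fun h => hS1 (hL.affine k _ h)
  -- a relation that is not affine
  obtain ⟨⟨r, R, sc⟩, hc0, hRna⟩ : ∃ c ∈ I0, ¬ IsAffine c.rel := by
    by_contra hcon
    push Not at hcon
    apply hnaff
    intro x hx y hy z hz c hc
    exact hcon c hc _ (hx c hc) _ (hy c hc) _ (hz c hc)
  have hRΓ : (⟨r, R⟩ : Σ r : ℕ, Set (Fin r → ZMod 2)) ∈ Γ := hI0 _ hc0
  have hk : 1 ≤ k := by
    rcases Nat.eq_zero_or_pos k with h | h
    · subst h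
      exfalso
      apply hnaff
      intro x hx y _ z _
      have : x + y + z = x := Subsingleton.elim _ _
      rw [this]; exact hx
    · exact h
  obtain ⟨β, hinst⟩ := exists_inst I0 hI0 hRΓ hRna
  set S0 : Set (Fin k → ZMod 2) := {s | s + (fun _ => β) ∈ Sol I0} with hS0
  set K : Finset (Fin k) := Finset.univ.filter fun i => ∃ s ∈ S0, ∃ s' ∈ S0, s i ≠ s' i with hKd
  have hββ : ∀ s : Fin k → ZMod 2, s + (fun _ => β) + (fun _ => β) = s := by
    intro s; rw [add_assoc, pi_add_self, add_zero]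
  have hne : S0.Nonempty := by
    by_contra h
    rw [Set.not_nonempty_iff_eq_empty] at h
    apply hnaff
    intro x hx
    exfalso
    have : x + (fun _ => β) ∈ S0 := by
      show x + (fun _ => β) + (fun _ => β) ∈ Sol I0
      rw [hββ]; exact hx
    rw [h] at this
    exact this
  have hK : ∀ i ∈ K, ∀ b : ZMod 2, ∃ s ∈ S0, s i = b := by
    intro i hi b
    obtain ⟨s, hs, s', hs', hne'⟩ := (Finset.mem_filter.1 hi).2
    have h3 : ∀ a a' b : ZMod 2, a ≠ a' → a = b ∨ a' = b := by decide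
    rcases h3 _ _ b hne' with h | h
    · exact ⟨s, hs, h⟩
    · exact ⟨s', hs', h⟩
  have hK' : ∀ i ∉ K, ∀ s ∈ S0, ∀ s' ∈ S0, s i = s' i := by
    intro i hi s hs s' hs'
    by_contra hcon
    exact hi (Finset.mem_filter.2 ⟨Finset.mem_univ _, s, hs, s', hs', hcon⟩)
  -- the constants
  set ρ1 : ℝ := (2 : ℝ) ^ (2 * k) / (2 ^ (2 * k) + 1) with hρ1
  obtain ⟨q0, hq0⟩ := exists_pow_lt_of_lt_one (show (0 : ℝ) < ((2 : ℝ) ^ (18 * k))⁻¹ by positivity)
    (rho_lt (2 * k))
  set q : ℕ := q0 + 54 with hq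
  have hq2 : (2 : ℝ) ^ (18 * k) * ρ1 ^ q ≤ 1 := by
    have h1 : ρ1 ^ q ≤ ρ1 ^ q0 :=
      pow_le_pow_of_le_one (rho_pos _).le (rho_lt _).le (by omega)
    calc (2 : ℝ) ^ (18 * k) * ρ1 ^ q ≤ (2 : ℝ) ^ (18 * k) * ((2 : ℝ) ^ (18 * k))⁻¹ := by
          gcongr; exact h1.trans hq0.le
      _ = 1 := by field_simp
  obtain ⟨D, hmixD⟩ := exists_mix q (by omega)
  set D' := D + 3 * k with hD'
  set ρ : ℝ := (2 : ℝ) ^ (2 * (D' + 1)) / (2 ^ (2 * (D' + 1)) + 1) with hρ
  set Λ := 2 * (D' + 1) ^ 2 with hΛ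
  set B0 := 3 * k + r * (D * k + k) with hB0
  have hB0pos : 1 ≤ B0 := by omega
  obtain ⟨c, hc, hnum⟩ := num_final ρ ρ1 (rho_pos _) (rho_lt _) (rho_pos _) (rho_lt _) k q Λ
    (B0 + 2) hk (by rw [hΛ]; exact Nat.one_le_iff_ne_zero.2 (by positivity)) (by omega) (by omega) hq2
  refine ⟨c, hc, D * k + k + I0.length, ?_⟩
  intro n
  set m := (n - 2) / B0 with hm
  have hnB : n ≤ (B0 + 2) * (m + 1) := by
    have h1 : n - 2 < B0 * (m + 1) := Nat.lt_mul_div_succ _ (by omega)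
    have h2 : (B0 + 2) * (m + 1) = B0 * (m + 1) + 2 * m + 2 := by ring
    rw [h2]; omega
  rcases Nat.eq_zero_or_pos m with hm0 | hm1
  · refine ⟨[], ?_, by simp, ?_⟩
    · intro c hc; simp at hc
    intro g _ rk W M hM ⟨v, hv⟩
    have hs1 : (1 : ℝ) ≤ Fintype.card g := by exact_mod_cast Fintype.card_pos_iff.2 ⟨v⟩
    exact hnum n m hnB _ _ hs1 (Nat.cast_nonneg _) (fun h => by omega)
  · haveI : Nonempty (Pt m k) := ⟨(⟨0, hm1⟩, ⟨0, hk⟩)⟩
    obtain ⟨E0, hdiag, hdeg1, hdeg2, hE0c, hmix⟩ := hmixD (Pt m k)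
    have hPc : Fintype.card (Pt m k) = m * k := by
      rw [Fintype.card_prod, Fintype.card_fin, Fintype.card_fin]
    rw [hPc] at hE0c hmix
    have hmB : m * B0 + 2 ≤ n := by
      have h1 : m * B0 ≤ n - 2 := Nat.div_mul_le_self _ _
      have h2 : 0 < m * B0 := by positivity
      omega
    obtain ⟨I, z0, z1, emb, τ, hover, hlen, hemb, hτ, hI⟩ := hinst m E0 K n (by
      have : r * (E0.card + m * k) ≤ r * (D * (m * k) + m * k) := by gcongr
      calc 3 * (m * k) + 2 + r * (E0.card + m * k) ≤ 3 * (m * k) + 2 + r * (D * (m * k) + m * k) := by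
            omega
        _ = m * B0 + 2 := by rw [hB0]; ring
        _ ≤ n := hmB)
    refine ⟨I, hover, ?_, ?_⟩
    · refine hlen.trans ?_
      have hmn : m ≤ n := by nlinarith
      calc E0.card + m * k + m * I0.length ≤ D * (m * k) + m * k + m * I0.length := by omega
        _ = (D * k + k + I0.length) * m := by ring
        _ ≤ _ := Nat.mul_le_mul_left _ hmn
    · intro g _ rk W M hM ⟨v, hv⟩
      have hs1 : (1 : ℝ) ≤ Fintype.card g := by exact_mod_cast Fintype.card_pos_iff.2 ⟨v⟩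
      refine hnum n m hnB _ _ hs1 (Nat.cast_nonneg _) (fun _ => ?_)
      set a := 9 * (m * k / q) + 6 with ha
      have hstar : Star (Gr E0 K) (XK m K) a (m * k / q) :=
        star_of_mix (by omega) E0 K hdiag (fun A B hA hB _ _ => hmix A B hA hB)
      have hdeg : ∀ v, ((GrB E0 K).neighborSet v).ncard ≤ D' := fun v =>
        grB_degree E0 K hdeg1 hdeg2 v
      have hβ : ∀ U U' : Set (Vt m k → ZMod 2), (∀ u ∈ U, ∀ v ∈ U', u + v ∈ Tgt E0 K S0) →
          2 ^ a ≤ pat (XK m K) U → 2 ^ a ≤ pat (XK m K) U' →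
          ((ssum U U').ncard : ℝ) ≤ ρ ^ (m * k / q / Λ) * (Tgt E0 K S0).ncard := by
        intro U U' h h1 h2
        refine sumset_gen (Gr E0 K) (GrB E0 K) D' hdeg ?_ (Tgt E0 K S0) (fun x hx => hx.1) ?_
          (XK m K) a (m * k / q) hstar U U' h h1 h2
        · intro u v huv
          exact ⟨(Gr E0 K).ne_of_adj huv, Or.inl huv⟩
        · intro u v huv p q hpq x hx
          exact tgt_patch E0 K S0 hK hK' u v huv p q hpq x hx
      have hκ := tgt_kappa E0 K S0 hne hK'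
      obtain ⟨hcard, hβ', hκ'⟩ := translate_bounds (X := XK m K) (K := 2 ^ a) τ hβ hκ
      have hprog := derived_isProg hM z0 z1 emb
      have htop : derived M z0 z1 emb (v, (0, 1)) = {x | x + τ ∈ Tgt E0 K S0} := by
        ext x
        rw [← show (∃ y ∈ Sol I, y z0 = 0 ∧ y z1 = 1 ∧ ∀ u, x u = y (emb u)) ↔
          x ∈ {x | x + τ ∈ Tgt E0 K S0} from hI x, ← hv]
        rfl
      have hne' : ({x | x + τ ∈ Tgt E0 K S0} : Set (Vt m k → ZMod 2)).Nonempty := by
        rw [← Set.ncard_pos (Set.toFinite _), hcard]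
        have h1 := tgt_card E0 K S0 hne
        have h2 : (0 : ℝ) < (Tgt E0 K S0).ncard := lt_of_lt_of_le (by positivity) h1
        exact_mod_cast h2
      have hpb := path_bound (derL (L n) z0 z1 emb) (fun w : g × (ZMod 2 × ZMod 2) => rk w.1) W
        (2 ^ a) Nat.one_le_two_pow (derived M z0 z1 emb) hprog _ hne' (XK m K) (v, (0, 1)) htop
        (ρ ^ (m * k / q / Λ)) (ρ1 ^ m) ((1 / 2) ^ (m * k)) (pow_nonneg (rho_pos _).le _)
        (pow_nonneg (rho_pos _).le _) (by positivity)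
        (fun S hS C hC hconst => leaf_bound hL hemb E0 K hS1 hK' τ hτ S hS C hC hconst)
        hβ' hκ'
      have hc4 : (Fintype.card (g × (ZMod 2 × ZMod 2)) : ℝ) = 4 * (Fintype.card g : ℝ) := by
        rw [Fintype.card_prod, Fintype.card_prod, ZMod.card]; push_cast; ring
      rw [hc4] at hpb
      push_cast at hpb
      exact hpb

/-- **Relative dichotomy.** -/
theorem dichotomy (L : RelClass) (hL : Closed L) (Γ : Language) :
    (∀ (n : ℕ) (I : List (Constraint n)), Over Γ I → Sol I ∈ L n) ∨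
    ∃ c : ℝ, 0 < c ∧ ∃ C : ℕ, ∀ n : ℕ, ∃ I : List (Constraint n),
      Over Γ I ∧ I.length ≤ C * n ∧
      ∀ (g : Type) (_ : Fintype g) (rk : g → ℕ) (W : ℕ) (M : g → Set (Fin n → ZMod 2)),
        IsProg (L n) rk W M → (∃ v, M v = Sol I) →
          (2 : ℝ) ^ (c * n) ≤ 2 * (Fintype.card g + W) := by
  by_cases h : ∀ (n : ℕ) (I : List (Constraint n)), Over Γ I → Sol I ∈ L n
  · exact Or.inl h
  · right
    push Not at h
    obtain ⟨k, I0, hI0, hS1⟩ := h
    exact hard hL I0 hI0 hS1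

end Pool.Agent.RelD
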