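import Pool.Agent.RelD.Defs
import Pool.Agent.Helper91.Dich.Path

/-!
The path argument for programs with leaves in a family `L` of sets.
-/

namespace Pool.Agent.RelD

open Finset Pool.Agent.Dichotomy

variable {ι : Type*} [Fintype ι] [DecidableEq ι]

set_option linter.unusedSectionVars false

/-- A sumset with few patterns in the first summand. -/
theorem leaf_split {X : Finset ι} {K : ℕ} {A S C : Set (ι → ZMod 2)} {ε : ℝ} (hε0 : 0 ≤ ε)
    (hC : ∀ c ∈ C, ∀ y ∈ S, c + y ∈ A) (hK : pat X C < K)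
    (hleaf : ∀ C' : Set (ι → ZMod 2), (∀ c ∈ C', ∀ y ∈ S, c + y ∈ A) →
      (∀ c ∈ C', ∀ c' ∈ C', ∀ i ∈ X, c i = c' i) → ((ssum C' S).ncard : ℝ) ≤ ε * A.ncard) :
    ((ssum C S).ncard : ℝ) ≤ K * ε * A.ncard := by
  classical
  set Pt : Finset (X → ZMod 2) := (Set.toFinite (res X '' C)).toFinset with hPt
  have hPtc : Pt.card = pat X C := by
    rw [pat_eq, hPt, ← Set.ncard_eq_toFinset_card]
  have hsub : ssum C S ⊆ ((Pt.biUnion fun q =>
      (Set.toFinite (ssum {c | c ∈ C ∧ res X c = q} S)).toFinset : Finset (ι → ZMod 2)) :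
        Set (ι → ZMod 2)) := by
    rintro z ⟨c, hc, y, hy, rfl⟩
    rw [Finset.mem_coe, Finset.mem_biUnion]
    refine ⟨res X c, ?_, ?_⟩
    · rw [hPt, Set.Finite.mem_toFinset]; exact ⟨c, hc, rfl⟩
    · rw [Set.Finite.mem_toFinset]; exact ⟨c, ⟨hc, rfl⟩, y, hy, rfl⟩
  have h1 := Set.ncard_le_ncard hsub (Finset.finite_toSet _)
  rw [Set.ncard_coe_finset] at h1
  have h2 := h1.trans Finset.card_biUnion_le
  have h3 : ∀ q ∈ Pt, (((Set.toFinite (ssum {c | c ∈ C ∧ res X c = q} S)).toFinset.card : ℕ) : ℝ)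
      ≤ ε * A.ncard := by
    intro q _
    rw [← Set.ncard_eq_toFinset_card]
    refine hleaf _ (fun c hc y hy => hC c hc.1 y hy) ?_
    rintro c ⟨-, hc⟩ c' ⟨-, hc'⟩ i hi
    exact congrFun (hc.trans hc'.symm) ⟨i, hi⟩
  calc ((ssum C S).ncard : ℝ) ≤
        ((∑ q ∈ Pt, (Set.toFinite (ssum {c | c ∈ C ∧ res X c = q} S)).toFinset.card : ℕ) : ℝ) := by
        exact_mod_cast h2
    _ = ∑ q ∈ Pt, (((Set.toFinite (ssum {c | c ∈ C ∧ res X c = q} S)).toFinset.card : ℕ) : ℝ) := by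
        push_cast; rfl
    _ ≤ ∑ _q ∈ Pt, ε * A.ncard := Finset.sum_le_sum h3
    _ = pat X C * (ε * A.ncard) := by rw [Finset.sum_const, nsmul_eq_mul, hPtc]
    _ ≤ K * (ε * A.ncard) := by
        have : (pat X C : ℝ) ≤ K := by exact_mod_cast hK.le
        gcongr
    _ = K * ε * A.ncard := by ring

section main

variable {g : Type*} [Fintype g] (L : Set (Set (ι → ZMod 2))) (rk : g → ℕ) (W K : ℕ)
  (M : g → Set (ι → ZMod 2)) (A : Set (ι → ZMod 2)) (X : Finset ι)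

/-- A gate whose elements, together with its contexts, form a large sumset in `A`. -/
def Big (w : g) : Prop :=
  K ≤ pat X (M w) ∧ K ≤ pat X (ctx A (M w))

theorem walk (hM : IsProg L rk W M) : ∀ n : ℕ, ∀ v : g, rk v = n → pat X (ctx A (M v)) < K →
    ∀ c ∈ ctx A (M v), ∀ y ∈ M v,
      (∃ w, Big K M A X w ∧ c + y ∈ ssum (ctx A (M w)) (M w)) ∨
      (∃ w, pat X (ctx A (M w)) < K ∧ (((M w).Finite ∧ (M w).ncard ≤ W) ∨ pat X (M w) < K) ∧
        c + y ∈ ssum (ctx A (M w)) (M w)) ∨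
      (∃ w a, pat X (ctx A (M w)) < K ∧ pat X (M a) < K ∧
        c + y ∈ ssum (ctx A (M w)) (M a)) ∨
      (∃ w a b, pat X (ctx A (M w)) < K ∧ pat X (M a) < K ∧ pat X (M b) < K ∧
        c + y ∈ ssum (ctx A (M w)) (ssum (M a) (M b))) ∨
      (∃ w, pat X (ctx A (M w)) < K ∧ M w ∈ L ∧ c + y ∈ ssum (ctx A (M w)) (M w)) := by
  intro n
  induction n using Nat.strong_induction_on with
  | _ n ih =>
    intro v hv hlight c hc y hy
    rcases hM v with hleaf | haff | ⟨Q, P, hQ, hP, hmem⟩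
    · exact Or.inr (Or.inl ⟨v, hlight, Or.inl hleaf, c, hc, y, hy, rfl⟩)
    · exact Or.inr (Or.inr (Or.inr (Or.inr ⟨v, hlight, haff, c, hc, y, hy, rfl⟩)))
    · rcases (hmem y).1 hy with ⟨a, ha, hya⟩ | ⟨p, hp, y1, hy1, y2, hy2, rfl⟩
      · -- a union
        have hca : c ∈ ctx A (M a) := fun y' hy' => hc y' ((hmem y').2 (Or.inl ⟨a, ha, hy'⟩))
        by_cases hla : pat X (ctx A (M a)) < K
        · exact ih (rk a) (hv ▸ hQ a ha) a rfl hla c hca y hya
        · push Not at hla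
          by_cases hMa : K ≤ pat X (M a)
          · exact Or.inl ⟨a, ⟨hMa, hla⟩, c, hca, y, hya, rfl⟩
          · push Not at hMa
            exact Or.inr (Or.inr (Or.inl ⟨v, a, hlight, hMa, c, hc, y, hya, rfl⟩))
      · -- a sum
        have hmem' : ∀ z1 ∈ M p.1, ∀ z2 ∈ M p.2, z1 + z2 ∈ M v := by
          intro z1 hz1 z2 hz2
          exact (hmem _).2 (Or.inr ⟨p, hp, z1, hz1, z2, hz2, rfl⟩)
        rcases le_total (pat X (M p.2)) (pat X (M p.1)) with hle | hle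
        · have hca : c + y2 ∈ ctx A (M p.1) := by
            intro y' hy'
            have := hc _ (hmem' y' hy' y2 hy2)
            have heq : c + y2 + y' = c + (y' + y2) := by abel
            rw [heq]; exact this
          have heq : c + (y1 + y2) = c + y2 + y1 := by abel
          by_cases hla : pat X (ctx A (M p.1)) < K
          · have := ih (rk p.1) (hv ▸ (hP p hp).1) p.1 rfl hla (c + y2) hca y1 hy1
            rw [heq]; exact this
          · push Not at hla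
            by_cases hMa : K ≤ pat X (M p.1)
            · exact Or.inl ⟨p.1, ⟨hMa, hla⟩, c + y2, hca, y1, hy1, heq⟩
            · push Not at hMa
              exact Or.inr (Or.inr (Or.inr (Or.inl ⟨v, p.1, p.2, hlight, hMa, lt_of_le_of_lt hle hMa,
                c, hc, y1 + y2, ⟨y1, hy1, y2, hy2, rfl⟩, rfl⟩)))
        · have hca : c + y1 ∈ ctx A (M p.2) := by
            intro y' hy'
            have := hc _ (hmem' y1 hy1 y' hy')
            have heq : c + y1 + y' = c + (y1 + y') := by abel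
            rw [heq]; exact this
          have heq : c + (y1 + y2) = c + y1 + y2 := by abel
          by_cases hla : pat X (ctx A (M p.2)) < K
          · have := ih (rk p.2) (hv ▸ (hP p hp).2) p.2 rfl hla (c + y1) hca y2 hy2
            rw [heq]; exact this
          · push Not at hla
            by_cases hMa : K ≤ pat X (M p.2)
            · exact Or.inl ⟨p.2, ⟨hMa, hla⟩, c + y1, hca, y2, hy2, heq⟩
            · push Not at hMa
              exact Or.inr (Or.inr (Or.inr (Or.inl ⟨v, p.1, p.2, hlight, lt_of_le_of_lt hle hMa, hMa,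
                c, hc, y1 + y2, ⟨y1, hy1, y2, hy2, rfl⟩, rfl⟩)))

end main

theorem big_card {g : Type*} [Fintype g] {K : ℕ} {M : g → Set (ι → ZMod 2)}
    {A : Set (ι → ZMod 2)} {X : Finset ι} {β : ℝ}
    (hβ : ∀ U U' : Set (ι → ZMod 2), (∀ u ∈ U, ∀ v ∈ U', u + v ∈ A) → K ≤ pat X U →
      K ≤ pat X U' → ((ssum U U').ncard : ℝ) ≤ β * A.ncard) (w : g) (hw : Big K M A X w) :
    ((ssum (ctx A (M w)) (M w)).ncard : ℝ) ≤ β * A.ncard :=
  hβ _ _ (fun u hu v hv => hu v hv) hw.2 hw.1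

/-- **Path argument.** -/
theorem path_bound_sub {g : Type*} [Fintype g] (L : Set (Set (ι → ZMod 2))) (rk : g → ℕ)
    (W K : ℕ) (hK : 1 ≤ K)
    (M : g → Set (ι → ZMod 2)) (hM : IsProg L rk W M) (A : Set (ι → ZMod 2)) 
    (X : Finset ι) (top : g) (htop : M top ⊆ A) (β ε κ : ℝ) (hβ0 : 0 ≤ β) (hε0 : 0 ≤ ε)
    (hκ0 : 0 ≤ κ)
    (hleaf : ∀ S ∈ L, ∀ C : Set (ι → ZMod 2), (∀ c ∈ C, ∀ y ∈ S, c + y ∈ A) →
      (∀ c ∈ C, ∀ c' ∈ C, ∀ i ∈ X, c i = c' i) → ((ssum C S).ncard : ℝ) ≤ ε * A.ncard)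
    (hβ : ∀ U U' : Set (ι → ZMod 2), (∀ u ∈ U, ∀ v ∈ U', u + v ∈ A) → K ≤ pat X U →
      K ≤ pat X U' → ((ssum U U').ncard : ℝ) ≤ β * A.ncard)
    (hκ : ∀ p : ι → ZMod 2, ({x | x ∈ A ∧ ∀ i ∈ X, x i = p i}.ncard : ℝ) ≤ κ * A.ncard) :
    ((M top).ncard : ℝ) ≤ ((Fintype.card g : ℝ) * β + Fintype.card g * K * ε +
      κ * (Fintype.card g * K * W + 3 * (Fintype.card g : ℝ) ^ 3 * (K : ℝ) ^ 3)) * A.ncard := by
  classical
  have hgpos : (1 : ℝ) ≤ (Fintype.card g : ℝ) := by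
    exact_mod_cast Fintype.card_pos_iff.2 ⟨top⟩
  have hKr : (1 : ℝ) ≤ K := by exact_mod_cast hK
  set s : ℝ := (Fintype.card g : ℝ) with hs
  -- the pieces
  let B1 : g → Set (ι → ZMod 2) := fun w =>
    if Big K M A X w then ssum (ctx A (M w)) (M w) else ∅
  let B2 : g → Set (ι → ZMod 2) := fun w =>
    if pat X (ctx A (M w)) < K ∧ (((M w).Finite ∧ (M w).ncard ≤ W) ∨ pat X (M w) < K) then
      near X A (ssum (ctx A (M w)) (M w)) else ∅
  let B3 : g × g → Set (ι → ZMod 2) := fun w =>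
    if pat X (ctx A (M w.1)) < K ∧ pat X (M w.2) < K then
      near X A (ssum (ctx A (M w.1)) (M w.2)) else ∅
  let B4 : g × g × g → Set (ι → ZMod 2) := fun w =>
    if pat X (ctx A (M w.1)) < K ∧ pat X (M w.2.1) < K ∧ pat X (M w.2.2) < K then
      near X A (ssum (ctx A (M w.1)) (ssum (M w.2.1) (M w.2.2))) else ∅
  let B5 : g → Set (ι → ZMod 2) := fun w =>
    if pat X (ctx A (M w)) < K ∧ M w ∈ L then ssum (ctx A (M w)) (M w) else ∅
  have h5 : ∀ w, ((B5 w).ncard : ℝ) ≤ K * ε * A.ncard := by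
    intro w
    by_cases h : pat X (ctx A (M w)) < K ∧ M w ∈ L
    · simp only [B5, if_pos h]
      exact leaf_split hε0 (fun c hc y hy => hc y hy) h.1 (fun C' h1 h2 => hleaf _ h.2 C' h1 h2)
    · simp only [B5, if_neg h, Set.ncard_empty, Nat.cast_zero]; positivity
  have h1 : ∀ w, ((B1 w).ncard : ℝ) ≤ β * A.ncard := by
    intro w
    by_cases h : Big K M A X w
    · simp only [B1, if_pos h]; exact big_card hβ w h
    · simp only [B1, if_neg h, Set.ncard_empty, Nat.cast_zero]; positivity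
  have h2 : ∀ w, ((B2 w).ncard : ℝ) ≤ κ * (K * W + K ^ 2) * A.ncard := by
    intro w
    by_cases h : pat X (ctx A (M w)) < K ∧ (((M w).Finite ∧ (M w).ncard ≤ W) ∨ pat X (M w) < K)
    · simp only [B2, if_pos h]
      refine (near_card hκ).trans ?_
      have hp : (pat X (ssum (ctx A (M w)) (M w)) : ℝ) ≤ K * W + K ^ 2 := by
        have h3 := pat_ssum X (ctx A (M w)) (M w)
        rcases h.2 with h4 | h4
        · have h5 := (pat_le_ncard (X := X) (M w)).trans h4.2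
          have h6 : pat X (ssum (ctx A (M w)) (M w)) ≤ K * W :=
            h3.trans (Nat.mul_le_mul h.1.le h5)
          have : (pat X (ssum (ctx A (M w)) (M w)) : ℝ) ≤ K * W := by exact_mod_cast h6
          have h7 : (0:ℝ) ≤ (K:ℝ) ^ 2 := by positivity
          linarith
        · have h6 : pat X (ssum (ctx A (M w)) (M w)) ≤ K * K :=
            h3.trans (Nat.mul_le_mul h.1.le h4.le)
          have : (pat X (ssum (ctx A (M w)) (M w)) : ℝ) ≤ K * K := by exact_mod_cast h6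
          have h7 : (0:ℝ) ≤ (K:ℝ) * W := by positivity
          nlinarith
      gcongr
    · simp only [B2, if_neg h, Set.ncard_empty, Nat.cast_zero]; positivity
  have h3 : ∀ w, ((B3 w).ncard : ℝ) ≤ κ * K ^ 2 * A.ncard := by
    intro w
    by_cases h : pat X (ctx A (M w.1)) < K ∧ pat X (M w.2) < K
    · simp only [B3, if_pos h]
      refine (near_card hκ).trans ?_
      have hp : (pat X (ssum (ctx A (M w.1)) (M w.2)) : ℝ) ≤ K ^ 2 := by
        have h6 : pat X (ssum (ctx A (M w.1)) (M w.2)) ≤ K * K :=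
          (pat_ssum X _ _).trans (Nat.mul_le_mul h.1.le h.2.le)
        have : (pat X (ssum (ctx A (M w.1)) (M w.2)) : ℝ) ≤ K * K := by exact_mod_cast h6
        nlinarith
      gcongr
    · simp only [B3, if_neg h, Set.ncard_empty, Nat.cast_zero]; positivity
  have h4 : ∀ w, ((B4 w).ncard : ℝ) ≤ κ * K ^ 3 * A.ncard := by
    intro w
    by_cases h : pat X (ctx A (M w.1)) < K ∧ pat X (M w.2.1) < K ∧ pat X (M w.2.2) < K
    · simp only [B4, if_pos h]
      refine (near_card hκ).trans ?_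
      have hp : (pat X (ssum (ctx A (M w.1)) (ssum (M w.2.1) (M w.2.2))) : ℝ) ≤ K ^ 3 := by
        have h6 : pat X (ssum (ctx A (M w.1)) (ssum (M w.2.1) (M w.2.2))) ≤ K * (K * K) :=
          (pat_ssum X _ _).trans (Nat.mul_le_mul h.1.le
            ((pat_ssum X _ _).trans (Nat.mul_le_mul h.2.1.le h.2.2.le)))
        have : (pat X (ssum (ctx A (M w.1)) (ssum (M w.2.1) (M w.2.2))) : ℝ) ≤ K * (K * K) := by
          exact_mod_cast h6
        nlinarith
      gcongr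
    · simp only [B4, if_neg h, Set.ncard_empty, Nat.cast_zero]; positivity
  -- the covering
  by_cases hcase : pat X (ctx A (M top)) < K ∨ K ≤ pat X (M top)
  swap
  · -- few patterns altogether
    push Not at hcase
    have h5 : M top ⊆ near X A (M top) := fun x hx => ⟨htop hx, x, hx, rfl⟩
    have h6 : ((M top).ncard : ℝ) ≤ (near X A (M top)).ncard := by
      exact_mod_cast Set.ncard_le_ncard h5 (Set.toFinite _)
    refine h6.trans ((near_card hκ).trans ?_)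
    have h7 : (pat X (M top) : ℝ) ≤ K := by exact_mod_cast hcase.2.le
    have h8 : (K : ℝ) ≤ 3 * s ^ 3 * (K : ℝ) ^ 3 := by
      have a1 : 1 ≤ s ^ 3 := one_le_pow₀ hgpos
      have a2 : (K : ℝ) ≤ K ^ 3 := by nlinarith [sq_nonneg (K : ℝ)]
      nlinarith
    have h9 : (0 : ℝ) ≤ s * β := by positivity
    have h10 : (0 : ℝ) ≤ s * K * W := by positivity
    have h11 : (0 : ℝ) ≤ s * K * ε := by positivity
    have : κ * pat X (M top) ≤ s * β + s * K * ε +
        κ * (s * K * W + 3 * s ^ 3 * (K : ℝ) ^ 3) := by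
      have : κ * pat X (M top) ≤ κ * (s * K * W + 3 * s ^ 3 * (K : ℝ) ^ 3) := by
        gcongr; linarith
      linarith
    gcongr
  have hcover : M top ⊆ (⋃ w, B1 w) ∪ (⋃ w, B2 w) ∪ (⋃ w, B3 w) ∪ (⋃ w, B4 w) ∪
      (⋃ w, B5 w) := by
    intro x hxtop
    have hx : x ∈ A := htop hxtop
    have h0 : (0 : ι → ZMod 2) ∈ ctx A (M top) := by
      intro y hy; rw [zero_add]; exact htop hy
    have hxx : (0 : ι → ZMod 2) + x = x := zero_add x
    by_cases hl : pat X (ctx A (M top)) < K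
    · rcases walk L rk W K M A X hM (rk top) top rfl hl 0 h0 x hxtop with
        ⟨w, hw, hmem⟩ | ⟨w, hw, hw', hmem⟩ | ⟨w, a, hw, ha, hmem⟩ |
          ⟨w, a, b, hw, ha, hb, hmem⟩ | ⟨w, hw, hwL, hmem⟩
      · rw [hxx] at hmem
        refine Or.inl (Or.inl (Or.inl (Or.inl (Set.mem_iUnion.2 ⟨w, ?_⟩))))
        simp only [B1, if_pos hw]; exact hmem
      · rw [hxx] at hmem
        refine Or.inl (Or.inl (Or.inl (Or.inr (Set.mem_iUnion.2 ⟨w, ?_⟩))))
        simp only [B2, if_pos (And.intro hw hw')]; exact ⟨hx, x, hmem, rfl⟩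
      · rw [hxx] at hmem
        refine Or.inl (Or.inl (Or.inr (Set.mem_iUnion.2 ⟨(w, a), ?_⟩)))
        simp only [B3, if_pos (And.intro hw ha)]; exact ⟨hx, x, hmem, rfl⟩
      · rw [hxx] at hmem
        refine Or.inl (Or.inr (Set.mem_iUnion.2 ⟨(w, a, b), ?_⟩))
        simp only [B4, if_pos (And.intro hw (And.intro ha hb))]; exact ⟨hx, x, hmem, rfl⟩
      · rw [hxx] at hmem
        refine Or.inr (Set.mem_iUnion.2 ⟨w, ?_⟩)
        simp only [B5, if_pos (And.intro hw hwL)]; exact hmem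
    · push Not at hl
      have hMt : K ≤ pat X (M top) := hcase.resolve_left (not_lt.2 hl)
      refine Or.inl (Or.inl (Or.inl (Or.inl (Set.mem_iUnion.2 ⟨top, ?_⟩))))
      have : Big K M A X top := ⟨hMt, hl⟩
      simp only [B1, if_pos this]
      exact ⟨0, h0, x, hxtop, hxx.symm⟩
  -- count
  have hfin : ∀ (τ : Type _) [Fintype τ] (B : τ → Set (ι → ZMod 2)) (b : ℝ),
      (∀ w, ((B w).ncard : ℝ) ≤ b) → ((⋃ w, B w).ncard : ℝ) ≤ Fintype.card τ * b := by
    intro τ _ B b hb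
    have e1 : (⋃ w, B w).ncard ≤ ∑ w, (B w).ncard := by
      have : (⋃ w, B w) = ((Finset.univ.biUnion fun w => (Set.toFinite (B w)).toFinset :
          Finset (ι → ZMod 2)) : Set (ι → ZMod 2)) := by
        ext z
        rw [Finset.mem_coe, Finset.mem_biUnion, Set.mem_iUnion]
        constructor
        · rintro ⟨i, hi⟩
          exact ⟨i, Finset.mem_univ i, (Set.Finite.mem_toFinset _).2 hi⟩
        · rintro ⟨i, -, hi⟩
          exact ⟨i, (Set.Finite.mem_toFinset _).1 hi⟩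
      rw [this, Set.ncard_coe_finset]
      refine Finset.card_biUnion_le.trans (le_of_eq (Finset.sum_congr rfl fun w _ => ?_))
      rw [← Set.ncard_eq_toFinset_card]
    calc ((⋃ w, B w).ncard : ℝ) ≤ ((∑ w, (B w).ncard : ℕ) : ℝ) := by exact_mod_cast e1
      _ = ∑ w, ((B w).ncard : ℝ) := by push_cast; rfl
      _ ≤ ∑ _w : τ, b := Finset.sum_le_sum fun w _ => hb w
      _ = Fintype.card τ * b := by rw [Finset.sum_const, nsmul_eq_mul, Finset.card_univ]
  have hc1 := hfin g B1 _ h1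
  have hc2 := hfin g B2 _ h2
  have hc3 := hfin (g × g) B3 _ h3
  have hc4 := hfin (g × g × g) B4 _ h4
  have hc5 := hfin g B5 _ h5
  have htot : ((M top).ncard : ℝ) ≤ (⋃ w, B1 w).ncard + (⋃ w, B2 w).ncard + (⋃ w, B3 w).ncard
      + (⋃ w, B4 w).ncard + (⋃ w, B5 w).ncard := by
    have e1 := Set.ncard_le_ncard hcover (Set.toFinite _)
    have e5 := Set.ncard_union_le ((⋃ w, B1 w) ∪ (⋃ w, B2 w) ∪ (⋃ w, B3 w) ∪ (⋃ w, B4 w))
      (⋃ w, B5 w)
    have e2 := Set.ncard_union_le ((⋃ w, B1 w) ∪ (⋃ w, B2 w) ∪ (⋃ w, B3 w)) (⋃ w, B4 w)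
    have e3 := Set.ncard_union_le ((⋃ w, B1 w) ∪ (⋃ w, B2 w)) (⋃ w, B3 w)
    have e4 := Set.ncard_union_le (⋃ w, B1 w) (⋃ w, B2 w)
    have : (M top).ncard ≤ (⋃ w, B1 w).ncard + (⋃ w, B2 w).ncard + (⋃ w, B3 w).ncard
      + (⋃ w, B4 w).ncard + (⋃ w, B5 w).ncard := by omega
    exact_mod_cast this
  simp only [Fintype.card_prod, Nat.cast_mul] at hc3 hc4
  rw [← hs] at hc1 hc2 hc3 hc4 hc5
  have hall : ((M top).ncard : ℝ) ≤ (s * β + s * K * ε +
      κ * (s * K * W + 3 * s ^ 3 * (K : ℝ) ^ 3)) * A.ncard := by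
    have hb1 : s * (κ * (K * W + (K:ℝ) ^ 2) * A.ncard) + s * s * (κ * K ^ 2 * A.ncard)
        + s * (s * s) * (κ * K ^ 3 * A.ncard) ≤
        A.ncard * (κ * (s * K * W + 3 * s ^ 3 * (K : ℝ) ^ 3)) := by
      have hk : 0 ≤ κ * A.ncard := by positivity
      have e1 : s * (K:ℝ) ^ 2 ≤ s ^ 3 * K ^ 3 := by
        have a1 : s ≤ s ^ 3 := by nlinarith [sq_nonneg (s-1), sq_nonneg s]
        have a2 : (K:ℝ) ^ 2 ≤ K ^ 3 := by nlinarith [sq_nonneg ((K:ℝ))]
        exact mul_le_mul a1 a2 (by positivity) (by positivity)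
      have e2 : s * s * (K:ℝ) ^ 2 ≤ s ^ 3 * K ^ 3 := by
        have a1 : s * s ≤ s ^ 3 := by nlinarith [sq_nonneg s]
        have a2 : (K:ℝ) ^ 2 ≤ K ^ 3 := by nlinarith [sq_nonneg ((K:ℝ))]
        exact mul_le_mul a1 a2 (by positivity) (by positivity)
      have : A.ncard * (κ * (s * K * W + 3 * s ^ 3 * (K : ℝ) ^ 3)) -
          (s * (κ * (K * W + (K:ℝ) ^ 2) * A.ncard) + s * s * (κ * K ^ 2 * A.ncard)
        + s * (s * s) * (κ * K ^ 3 * A.ncard)) = (κ * A.ncard) *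
          ((s ^ 3 * K ^ 3 - s * (K:ℝ) ^ 2) + (s ^ 3 * K ^ 3 - s * s * (K:ℝ) ^ 2)) := by ring
      have h9 : 0 ≤ (κ * A.ncard) *
          ((s ^ 3 * K ^ 3 - s * (K:ℝ) ^ 2) + (s ^ 3 * K ^ 3 - s * s * (K:ℝ) ^ 2)) := by
        apply mul_nonneg hk; linarith
      linarith
    have h12 : ((M top).ncard : ℝ) ≤ s * (β * A.ncard) + (s * (κ * (K * W + (K:ℝ) ^ 2) * A.ncard)
        + s * s * (κ * K ^ 2 * A.ncard) + s * (s * s) * (κ * K ^ 3 * A.ncard)) +
        s * (K * ε * A.ncard) := by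
      linarith
    calc ((M top).ncard : ℝ) ≤ _ := h12
      _ ≤ s * (β * A.ncard) + A.ncard * (κ * (s * K * W + 3 * s ^ 3 * (K : ℝ) ^ 3)) +
          s * (K * ε * A.ncard) := by linarith
      _ = _ := by ring
  exact hall

/-- **Path argument**, the case of an exact representation. -/
theorem path_bound {g : Type*} [Fintype g] (L : Set (Set (ι → ZMod 2))) (rk : g → ℕ)
    (W K : ℕ) (hK : 1 ≤ K)
    (M : g → Set (ι → ZMod 2)) (hM : IsProg L rk W M) (A : Set (ι → ZMod 2)) (hA : A.Nonempty)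
    (X : Finset ι) (top : g) (htop : M top = A) (β ε κ : ℝ) (hβ0 : 0 ≤ β) (hε0 : 0 ≤ ε)
    (hκ0 : 0 ≤ κ)
    (hleaf : ∀ S ∈ L, ∀ C : Set (ι → ZMod 2), (∀ c ∈ C, ∀ y ∈ S, c + y ∈ A) →
      (∀ c ∈ C, ∀ c' ∈ C, ∀ i ∈ X, c i = c' i) → ((ssum C S).ncard : ℝ) ≤ ε * A.ncard)
    (hβ : ∀ U U' : Set (ι → ZMod 2), (∀ u ∈ U, ∀ v ∈ U', u + v ∈ A) → K ≤ pat X U →
      K ≤ pat X U' → ((ssum U U').ncard : ℝ) ≤ β * A.ncard)
    (hκ : ∀ p : ι → ZMod 2, ({x | x ∈ A ∧ ∀ i ∈ X, x i = p i}.ncard : ℝ) ≤ κ * A.ncard) :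
    1 ≤ (Fintype.card g : ℝ) * β + Fintype.card g * K * ε +
      κ * (Fintype.card g * K * W + 3 * (Fintype.card g : ℝ) ^ 3 * (K : ℝ) ^ 3) := by
  have hApos : (0 : ℝ) < A.ncard := by
    exact_mod_cast (Set.ncard_pos (Set.toFinite A)).2 hA
  have h := path_bound_sub L rk W K hK M hM A X top htop.le β ε κ hβ0 hε0 hκ0 hleaf hβ hκ
  rw [htop] at h
  by_contra hcon
  push Not at hcon
  nlinarith

end Pool.Agent.RelD
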